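import Mathlib

set_option autoImplicit false

namespace Pool.Agent.Lib.TripleDiv

open Finset

/-- The number of divisors as a product over any finite set containing the prime factors. -/
theorem card_divisors_prod {n : ℕ} (hn : n ≠ 0) (U : Finset ℕ) (hU : n.primeFactors ⊆ U) :
    n.divisors.card = ∏ p ∈ U, (n.factorization p + 1) := by
  rw [Nat.card_divisors hn]
  refine Finset.prod_subset hU fun p _ hp => ?_
  rw [← Nat.support_factorization, Finsupp.notMem_support_iff] at hp
  rw [hp, zero_add]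

theorem share_card {δ u : ℕ} (hδ : δ ≠ 0) (hu : u ≠ 0) (S : Finset ℕ)
    (hS : ∀ p, p.Prime → p ∣ δ → p ∣ u → p ∈ S)
    (h2 : ∀ p ∈ S, p.Prime ∧ δ.factorization p = 2 ∧ u.factorization p = 3) :
    δ.divisors.card * u.divisors.card = 2 ^ S.card * (δ * u).divisors.card := by
  have hδu : δ * u ≠ 0 := Nat.mul_ne_zero hδ hu
  have hUδ : δ.primeFactors ⊆ (δ * u).primeFactors :=
    Nat.primeFactors_mono (Dvd.intro _ rfl) hδu
  have hUu : u.primeFactors ⊆ (δ * u).primeFactors :=
    Nat.primeFactors_mono (Dvd.intro_left _ rfl) hδu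
  have hSU : S ⊆ (δ * u).primeFactors := by
    intro p hp
    obtain ⟨hpp, hd, _⟩ := h2 p hp
    refine hUδ (Nat.mem_primeFactors.2 ⟨hpp, ?_, hδ⟩)
    exact Nat.dvd_of_factorization_pos (by rw [hd]; decide)
  have h2S : (2 : ℕ) ^ S.card = ∏ p ∈ (δ * u).primeFactors, (if p ∈ S then 2 else 1) := by
    rw [Finset.prod_ite_mem, Finset.inter_eq_right.2 hSU, Finset.prod_const]
  rw [card_divisors_prod hδ _ hUδ, card_divisors_prod hu _ hUu,
    card_divisors_prod hδu _ (Finset.Subset.refl _), h2S, ← Finset.prod_mul_distrib,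
    ← Finset.prod_mul_distrib]
  refine Finset.prod_congr rfl fun p hp => ?_
  rw [Nat.factorization_mul hδ hu, Finsupp.add_apply]
  by_cases hpS : p ∈ S
  · obtain ⟨_, hd, hu3⟩ := h2 p hpS
    rw [if_pos hpS, hd, hu3]
    norm_num
  · rw [if_neg hpS, one_mul]
    have hpp : p.Prime := Nat.prime_of_mem_primeFactors hp
    by_cases hd : p ∣ δ
    · have hnu : ¬ p ∣ u := fun h => hpS (hS p hpp hd h)
      rw [Nat.factorization_eq_zero_of_not_dvd hnu]
      ring
    · rw [Nat.factorization_eq_zero_of_not_dvd hd]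
      ring

end Pool.Agent.Lib.TripleDiv
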