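import Mathlib

set_option autoImplicit false

namespace Pool.Agent.Lib.TripleDiv

open Finset

lemma block_card (k : ℕ) :
    k * ((Ioc (2 ^ k) (2 ^ (k + 1))).filter Nat.Prime).card ≤ 4 * 2 ^ k := by
  set S := (Ioc (2 ^ k) (2 ^ (k + 1))).filter Nat.Prime with hS
  have h1 : (2 ^ k) ^ S.card ≤ ∏ p ∈ S, p := by
    apply Finset.pow_card_le_prod
    intro p hp
    rw [hS, mem_filter, mem_Ioc] at hp
    exact hp.1.1.le
  have h2 : ∏ p ∈ S, p ≤ primorial (2 ^ (k + 1)) := by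
    unfold primorial
    apply Finset.prod_le_prod_of_subset_of_one_le'
    · intro p hp
      rw [hS, mem_filter, mem_Ioc] at hp
      rw [mem_filter, mem_range]
      exact ⟨by omega, hp.2⟩
    · intro p hp _
      rw [mem_filter] at hp
      exact hp.2.one_lt.le
  have h3 : primorial (2 ^ (k + 1)) ≤ 4 ^ (2 ^ (k + 1)) := primorial_le_four_pow _
  have h4 : 2 ^ (k * S.card) ≤ 2 ^ (2 * 2 ^ (k + 1)) := by
    rw [pow_mul, pow_mul]
    exact h1.trans (h2.trans h3)
  have h5 := (Nat.pow_le_pow_iff_right (by norm_num : 1 < 2)).1 h4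
  calc k * S.card ≤ 2 * 2 ^ (k + 1) := h5
    _ = 4 * 2 ^ k := by ring

lemma block_sum (k : ℕ) (hk : 1 ≤ k) :
    ∑ p ∈ (Ioc (2 ^ k) (2 ^ (k + 1))).filter Nat.Prime, (1 : ℝ) / p ≤ 4 * (1 / k) := by
  have h1 : ∑ p ∈ (Ioc (2 ^ k) (2 ^ (k + 1))).filter Nat.Prime, (1 : ℝ) / p
      ≤ ((Ioc (2 ^ k) (2 ^ (k + 1))).filter Nat.Prime).card • ((1 : ℝ) / 2 ^ k) := by
    apply Finset.sum_le_card_nsmul
    intro p hp
    rw [mem_filter, mem_Ioc] at hp
    apply one_div_le_one_div_of_le (by positivity)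
    exact_mod_cast hp.1.1.le
  refine h1.trans ?_
  rw [nsmul_eq_mul]
  have h2 : ((k * ((Ioc (2 ^ k) (2 ^ (k + 1))).filter Nat.Prime).card : ℕ) : ℝ)
      ≤ ((4 * 2 ^ k : ℕ) : ℝ) := by exact_mod_cast block_card k
  push_cast at h2
  have hk0 : (0 : ℝ) < k := by exact_mod_cast hk
  have h3 : (0 : ℝ) < 2 ^ k := by positivity
  rw [mul_one_div, mul_one_div, div_le_div_iff₀ h3 hk0]
  linarith

lemma sum_dyadic (R : ℕ) (hR : 1 ≤ R) :
    ∑ p ∈ (range (2 ^ R + 1)).filter Nat.Prime, (1 : ℝ) / p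
      ≤ 1 / 2 + 4 * ∑ k ∈ Ico 1 R, (1 : ℝ) / k := by
  induction R, hR using Nat.le_induction with
  | base =>
    have : (range (2 ^ 1 + 1)).filter Nat.Prime = {2} := by decide
    rw [this]
    simp
  | succ R hR ih =>
    have hsplit : (range (2 ^ (R + 1) + 1)).filter Nat.Prime
        = (range (2 ^ R + 1)).filter Nat.Prime ∪ (Ioc (2 ^ R) (2 ^ (R + 1))).filter Nat.Prime := by
      ext p
      simp only [mem_union, mem_filter, mem_range, mem_Ioc]
      have : 2 ^ R ≤ 2 ^ (R + 1) := Nat.pow_le_pow_right (by norm_num) (by omega)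
      constructor
      · rintro ⟨h1, h2⟩
        by_cases h : p < 2 ^ R + 1
        · exact Or.inl ⟨h, h2⟩
        · exact Or.inr ⟨⟨by omega, by omega⟩, h2⟩
      · rintro (⟨h1, h2⟩ | ⟨⟨h1, h2⟩, h3⟩)
        · exact ⟨by omega, h2⟩
        · exact ⟨by omega, h3⟩
    have hdisj : Disjoint ((range (2 ^ R + 1)).filter Nat.Prime)
        ((Ioc (2 ^ R) (2 ^ (R + 1))).filter Nat.Prime) := by
      rw [Finset.disjoint_left]
      intro p hp hp'
      rw [mem_filter, mem_range] at hp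
      rw [mem_filter, mem_Ioc] at hp'
      omega
    rw [hsplit, Finset.sum_union hdisj, Finset.sum_Ico_succ_top hR]
    have := block_sum R hR
    linarith

/-! T7a -/
theorem sum_inv_primes (R : ℕ) (hR : 1 ≤ R) :
    ∑ p ∈ (range (2 ^ R + 1)).filter Nat.Prime, (1 : ℝ) / p ≤ 4 * (Nat.log 2 R + 1 : ℕ) + 1 := by
  refine (sum_dyadic R hR).trans ?_
  have h1 : ∑ k ∈ Ico 1 R, (1 : ℝ) / k ≤ ∑ k ∈ Ico (1 : ℕ) (2 ^ (Nat.log 2 R + 1)), (1 : ℝ) / (k : ℝ) := by
    apply Finset.sum_le_sum_of_subset_of_nonneg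
    · apply Finset.Ico_subset_Ico_right
      exact (Nat.lt_pow_succ_log_self (by norm_num) R).le
    · intro i _ _
      positivity
  have h2 : ∑ k ∈ Ico (1 : ℕ) (2 ^ (Nat.log 2 R + 1)), (1 : ℝ) / (k : ℝ)
      ≤ ∑ k ∈ range (Nat.log 2 R + 1), 2 ^ k • ((1 : ℝ) / ((2 ^ k : ℕ) : ℝ)) := by
    apply Finset.le_sum_condensed' (f := fun n : ℕ => (1 : ℝ) / (n : ℝ))
    intro m n hm hmn
    apply one_div_le_one_div_of_le
    · exact_mod_cast hm
    · exact_mod_cast hmn
  have h3 : ∑ k ∈ range (Nat.log 2 R + 1), 2 ^ k • ((1 : ℝ) / ((2 ^ k : ℕ) : ℝ))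
      = ((Nat.log 2 R + 1 : ℕ) : ℝ) := by
    rw [Finset.sum_congr rfl (g := fun _ => (1 : ℝ))]
    · simp
    · intro k _
      rw [nsmul_eq_mul]
      push_cast
      field_simp
  linarith

lemma card_large_le_one (R L : ℕ) (h0 : 0 < L) (hL : L ≤ 2 ^ (2 * R)) :
    (L.primeFactors.filter (fun p => 2 ^ R < p)).card ≤ 1 := by
  rw [Finset.card_le_one]
  intro p hp q hq
  rw [mem_filter, Nat.mem_primeFactors] at hp hq
  by_contra hne
  have hcop : p.Coprime q := (Nat.coprime_primes hp.1.1 hq.1.1).2 hne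
  have hdvd : p * q ∣ L := hcop.mul_dvd_of_dvd_of_dvd hp.1.2.1 hq.1.2.1
  have hle := Nat.le_of_dvd h0 hdvd
  have : 2 ^ R * 2 ^ R < p * q := Nat.mul_lt_mul'' hp.2 hq.2
  have h2 : 2 ^ (2 * R) = 2 ^ R * 2 ^ R := by rw [two_mul, pow_add]
  omega

lemma card_class (N p α β : ℕ) (hp : p.Prime) (hpα : ¬ p ∣ α) :
    (((range N).filter (fun t => p ∣ α * t + β)).card : ℝ) ≤ N / p + 1 := by
  rcases Finset.eq_empty_or_nonempty ((range N).filter (fun t => p ∣ α * t + β)) with h | h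
  · rw [h]
    simp only [card_empty, Nat.cast_zero]
    positivity
  · obtain ⟨t0, ht0⟩ := h
    rw [mem_filter] at ht0
    have hcop : Nat.Coprime p α := (Nat.Prime.coprime_iff_not_dvd hp).2 hpα
    have hsub : (range N).filter (fun t => p ∣ α * t + β)
        ⊆ (range N).filter (fun t => t ≡ t0 [MOD p]) := by
      intro t ht
      rw [mem_filter] at ht ⊢
      refine ⟨ht.1, ?_⟩
      have h1 : α * t + β ≡ α * t0 + β [MOD p] :=
        ((Nat.modEq_zero_iff_dvd).2 ht.2).trans ((Nat.modEq_zero_iff_dvd).2 ht0.2).symm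
      have h2 : α * t ≡ α * t0 [MOD p] := Nat.ModEq.add_right_cancel' β h1
      exact Nat.ModEq.cancel_left_of_coprime (by simpa using hcop) h2
    have hcard : ((range N).filter (fun t => t ≡ t0 [MOD p])).card ≤ N / p + 1 := by
      rw [← Nat.count_eq_card_filter_range]
      have := Nat.count_modEq_card_eq_ceil (r := p) (v := t0) N hp.pos
      rw [Nat.count_modEq_card N hp.pos]
      split_ifs
      · exact le_rfl
      · omega
    have h4 : (((range N).filter (fun t => p ∣ α * t + β)).card : ℝ)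
        ≤ ((N / p + 1 : ℕ) : ℝ) := by
      exact_mod_cast (Finset.card_le_card hsub).trans hcard
    refine h4.trans ?_
    push_cast
    have := @Nat.cast_div_le ℝ _ _ _ N p
    linarith

/-! T7b -/
theorem avg_omega (R α β : ℕ) (hR : 1 ≤ R)
    (hα : ∀ t < 2 ^ R, ∀ p, p.Prime → p ∣ α * t + β → ¬ p ∣ α)
    (hL : ∀ t < 2 ^ R, 0 < α * t + β ∧ α * t + β ≤ 2 ^ (2 * R)) :
    ∑ t ∈ range (2 ^ R), ((α * t + β).primeFactors.card : ℝ)
      ≤ 2 ^ R * (4 * (Nat.log 2 R + 1 : ℕ) + 4) := by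
  set P := (range (2 ^ R + 1)).filter Nat.Prime with hP
  have h1 : ∀ t ∈ range (2 ^ R), ((α * t + β).primeFactors.card : ℝ)
      ≤ 1 + ∑ p ∈ P, (if p ∣ α * t + β then (1 : ℝ) else 0) := by
    intro t ht
    rw [mem_range] at ht
    obtain ⟨h0, hle⟩ := hL t ht
    have hsub : (α * t + β).primeFactors ⊆
        ((α * t + β).primeFactors.filter (fun p => 2 ^ R < p))
          ∪ P.filter (fun p => p ∣ α * t + β) := by
      intro p hp
      have hp' := Nat.mem_primeFactors.1 hp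
      rw [mem_union, mem_filter, mem_filter, hP, mem_filter, mem_range]
      by_cases h : 2 ^ R < p
      · exact Or.inl ⟨hp, h⟩
      · exact Or.inr ⟨⟨by omega, hp'.1⟩, hp'.2.1⟩
    have hc := (Finset.card_le_card hsub).trans (Finset.card_union_le _ _)
    have hb := card_large_le_one R _ h0 hle
    have hfin : (α * t + β).primeFactors.card ≤ 1 + (P.filter (fun p => p ∣ α * t + β)).card := by
      omega
    rw [Finset.sum_ite, Finset.sum_const_zero, add_zero, Finset.sum_const, nsmul_eq_mul, mul_one]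
    exact_mod_cast hfin
  refine (Finset.sum_le_sum h1).trans ?_
  rw [Finset.sum_add_distrib, Finset.sum_comm]
  have h2 : ∀ p ∈ P, ∑ t ∈ range (2 ^ R), (if p ∣ α * t + β then (1 : ℝ) else 0)
      ≤ (2 ^ R : ℝ) * (1 / p) + 1 := by
    intro p hp
    rw [hP, mem_filter] at hp
    rw [Finset.sum_ite, Finset.sum_const_zero, add_zero, Finset.sum_const, nsmul_eq_mul, mul_one]
    by_cases hpα : p ∣ α
    · have : (range (2 ^ R)).filter (fun t => p ∣ α * t + β) = ∅ := by
        rw [Finset.filter_eq_empty_iff]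
        intro t ht hd
        exact hα t (mem_range.1 ht) p hp.2 hd hpα
      rw [this]
      simp only [card_empty, Nat.cast_zero]
      positivity
    · have := card_class (2 ^ R) p α β hp.2 hpα
      push_cast at this
      rw [mul_one_div]
      exact this
  have h3 := Finset.sum_le_sum h2
  rw [Finset.sum_add_distrib, ← Finset.mul_sum] at h3
  have h4 : ∑ p ∈ P, (1 : ℝ) ≤ 2 ^ R := by
    rw [Finset.sum_const, nsmul_eq_mul, mul_one]
    have : P.card ≤ 2 ^ R := by
      have hsub : P ⊆ Ioc 0 (2 ^ R) := by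
        intro p hp
        rw [hP, mem_filter, mem_range] at hp
        rw [mem_Ioc]
        exact ⟨hp.2.pos, by omega⟩
      calc P.card ≤ (Ioc 0 (2 ^ R)).card := Finset.card_le_card hsub
        _ = 2 ^ R := by simp
    exact_mod_cast this
  have h5 := sum_inv_primes R hR
  have h6 : ∑ t ∈ range (2 ^ R), (1 : ℝ) = 2 ^ R := by simp
  have h7 : (0 : ℝ) < 2 ^ R := by positivity
  have h8 := mul_le_mul_of_nonneg_left h5 h7.le
  rw [← hP] at h8
  have h9 : (2 ^ R : ℝ) * (4 * (Nat.log 2 R + 1 : ℕ) + 4)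
      = 2 ^ R + (2 ^ R * (4 * (Nat.log 2 R + 1 : ℕ) + 1) + 2 ^ R) + 2 ^ R := by ring
  rw [h6, h9]
  linarith

end Pool.Agent.Lib.TripleDiv
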