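import Pool.Agent.Lib.MP_def522_nt.Defs

/-!
# The choice of the parameter `C`
-/

set_option autoImplicit false

namespace Pool.Agent.Lib.TripleDiv

/-- polynomially bounded functions -/
def PBd (f : ℕ → ℕ) : Prop := ∃ A, ∀ C, f C ≤ (C + 2) ^ A

namespace PBd

lemma const (k : ℕ) : PBd fun _ => k :=
  ⟨k, fun C => by
    calc k ≤ 2 ^ k := Nat.lt_two_pow_self.le
      _ ≤ (C + 2) ^ k := Nat.pow_le_pow_left (by omega) k⟩

lemma id : PBd fun C => C := ⟨1, fun C => by simp⟩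

lemma mul {f g : ℕ → ℕ} (hf : PBd f) (hg : PBd g) : PBd fun C => f C * g C := by
  obtain ⟨A, hA⟩ := hf
  obtain ⟨B, hB⟩ := hg
  exact ⟨A + B, fun C => by rw [pow_add]; exact Nat.mul_le_mul (hA C) (hB C)⟩

lemma add {f g : ℕ → ℕ} (hf : PBd f) (hg : PBd g) : PBd fun C => f C + g C := by
  obtain ⟨A, hA⟩ := hf
  obtain ⟨B, hB⟩ := hg
  refine ⟨A + B + 1, fun C => ?_⟩
  have h1 : (C + 2) ^ A ≤ (C + 2) ^ (A + B) := Nat.pow_le_pow_right (by omega) (by omega)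
  have h2 : (C + 2) ^ B ≤ (C + 2) ^ (A + B) := Nat.pow_le_pow_right (by omega) (by omega)
  calc f C + g C ≤ 2 * (C + 2) ^ (A + B) := by have := hA C; have := hB C; omega
    _ ≤ (C + 2) * (C + 2) ^ (A + B) := Nat.mul_le_mul_right _ (by omega)
    _ = (C + 2) ^ (A + B + 1) := by rw [pow_succ]; ring

lemma pow {f : ℕ → ℕ} (hf : PBd f) (k : ℕ) : PBd fun C => f C ^ k := by
  obtain ⟨A, hA⟩ := hf
  exact ⟨A * k, fun C => by rw [pow_mul]; exact Nat.pow_le_pow_left (hA C) k⟩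

end PBd

lemma pbd_fR (N : ℕ) : PBd fun C => fR C N := by
  have c := PBd.const
  have hn : PBd fn := ((c 6).mul ((PBd.id.add (c 1)).pow 3)).mul (PBd.id.add (c 2))
  have hN0 : PBd fN0 := (c 4).mul (hn.pow 3)
  have hM : PBd fM := ((hn.pow 3).mul (c 3)).mul PBd.id
  have hp : PBd fp := (hN0.pow 2).add (((c 3).mul hM).mul (hN0.add hM))
  have ha : PBd fa := (((((c 5).mul (hn.pow 3)).mul (hp.add hN0)).add hp).add
    ((c 20).mul (hn.pow 3))).add (c 2)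
  have hK : PBd fK := (c 3).mul (hn.pow 2)
  have hz : PBd fun C => fz C N := ((c 8).mul hK).add (c N)
  have hQ : PBd fun C => fQ C N := by
    have h1 : PBd fun C => fz C N ^ 2 + 2 * fK C * fa C :=
      (hz.pow 2).add (((c 2).mul hK).mul ha)
    exact h1.add ((((c 2).mul (hK.pow 2)).mul ha).mul (h1.add ((hK.pow 3).mul ha)))
  exact (hQ.add ((c 2).mul hK)).add (c 8)

theorem choose_C (N : ℕ) : ∃ C, 1 ≤ C ∧ 48 * (Nat.log 2 (fR C N) + 2) ≤ C + 1 := by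
  obtain ⟨A, hA⟩ := pbd_fR N
  obtain ⟨j, hj1, hj⟩ : ∃ j, 2 ≤ j ∧ 48 * (j * A + 2) + 1 ≤ 2 ^ j := by
    -- `j = 2 i` with `i` large: `2 ^ (2 i) = (2 ^ i) ^ 2`
    obtain ⟨i, hi⟩ : ∃ i, i = 96 * A + 97 := ⟨_, rfl⟩
    refine ⟨2 * i, by omega, ?_⟩
    have h1 : i < 2 ^ i := Nat.lt_two_pow_self
    have h2 : 2 ^ (2 * i) = 2 ^ i * 2 ^ i := by rw [two_mul, pow_add]
    have h3 : i * i ≤ 2 ^ i * 2 ^ i := Nat.mul_le_mul h1.le h1.le
    rw [h2]
    refine le_trans ?_ h3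
    subst hi
    nlinarith
  have h4 : 4 ≤ 2 ^ j := by
    calc 4 = 2 ^ 2 := by norm_num
      _ ≤ 2 ^ j := Nat.pow_le_pow_right (by omega) hj1
  refine ⟨2 ^ j - 2, by omega, ?_⟩
  have h5 : fR (2 ^ j - 2) N ≤ 2 ^ (j * A) := by
    refine (hA (2 ^ j - 2)).trans (le_of_eq ?_)
    rw [Nat.sub_add_cancel (by omega), pow_mul]
  have h6 : Nat.log 2 (fR (2 ^ j - 2) N) ≤ j * A := by
    calc Nat.log 2 (fR (2 ^ j - 2) N) ≤ Nat.log 2 (2 ^ (j * A)) := Nat.log_mono_right h5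
      _ = j * A := Nat.log_pow (by omega) _
  omega

end Pool.Agent.Lib.TripleDiv
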