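import Mathlib

set_option autoImplicit false

namespace Pool.Agent.Lib.TripleDiv

/-- exponent of the size bound in `stepV` -/
def bV (K a z0 : ℕ) : ℕ :=
  (z0 ^ 2 + 2 * K * a) + 2 * K ^ 2 * a * ((z0 ^ 2 + 2 * K * a) + K ^ 3 * a)

/-- the three vertices of an edge -/
def vert {n : ℕ} (e : Fin n × Fin n × Fin n) (j : Fin 3) : Fin 3 × Fin n × Fin n :=
  (j, if j = 0 then (e.2.1, e.2.2) else if j = 1 then (e.1, e.2.2) else (e.1, e.2.1))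

/-- numerical functions of the construction -/
def fn (C : ℕ) : ℕ := 6 * (C + 1) ^ 3 * (C + 2)
def fN0 (C : ℕ) : ℕ := 4 * (fn C) ^ 3
def fM (C : ℕ) : ℕ := (fn C) ^ 3 * 3 * C
def fp (C : ℕ) : ℕ := (fN0 C) ^ 2 + 3 * (fM C) * (fN0 C + fM C)
def fa (C : ℕ) : ℕ := 5 * (fn C) ^ 3 * (fp C + fN0 C) + fp C + 20 * (fn C) ^ 3 + 2
def fK (C : ℕ) : ℕ := 3 * (fn C) ^ 2
def fz (C N : ℕ) : ℕ := 8 * fK C + N
def fQ (C N : ℕ) : ℕ := bV (fK C) (fa C) (fz C N)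
def fR (C N : ℕ) : ℕ := fQ C N + 2 * fK C + 8

/-- positions of the vertices -/
def pos (n P : ℕ) (v : Fin 3 × Fin n × Fin n) : ℕ :=
  if v.1 = 0 then P * (2 * n * (n - v.2.1) + 2 * (2 * n) ^ 2 * (n - v.2.2))
  else if v.1 = 1 then
    P * (1 + v.2.1 + 2 * n * n + (2 * n) ^ 2 * n + (2 * n) ^ 2 * (n - v.2.2)) + 1
  else P * (2 * n * n + 2 * (2 * n) ^ 2 * n + 2 + 2 * v.2.1 + 2 * n * v.2.2) + 2

/-- `(delta_e - 1) / P` -/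
def dp (n : ℕ) (e : Fin n × Fin n × Fin n) : ℕ :=
  1 + e.1 + 2 * n * e.2.1 + (2 * n) ^ 2 * e.2.2

end Pool.Agent.Lib.TripleDiv
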