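import Pool.Agent.Lib.MP_def522_nt.Defs

/-!
# Positions of the vertices
-/

set_option autoImplicit false

namespace Pool.Agent.Lib.TripleDiv

private lemma digit {N a a' q q' : ℕ} (ha : a < N) (ha' : a' < N) (h : a + N * q = a' + N * q') :
    a = a' ∧ q = q' := by
  have h1 : (a + N * q) % N = a := by rw [Nat.add_mul_mod_self_left, Nat.mod_eq_of_lt ha]
  have h2 : (a' + N * q') % N = a' := by rw [Nat.add_mul_mod_self_left, Nat.mod_eq_of_lt ha']
  have h3 : a = a' := by rw [← h1, h, h2]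
  subst h3
  refine ⟨rfl, ?_⟩
  have h4 : N * q = N * q' := by omega
  exact Nat.eq_of_mul_eq_mul_left (by omega) h4

theorem dp_inj (n : ℕ) : Function.Injective (dp n) := by
  rintro ⟨a, b, c⟩ ⟨a', b', c'⟩ h
  simp only [dp] at h
  have ha := a.2
  have ha' := a'.2
  have hb := b.2
  have hb' := b'.2
  obtain ⟨h1, h2⟩ := digit (N := 2 * n) (a := a) (a' := a') (q := b + 2 * n * c)
    (q' := b' + 2 * n * c') (by omega) (by omega) (by
      have e1 : (a : ℕ) + 2 * n * (b + 2 * n * c) = a + 2 * n * b + (2 * n) ^ 2 * c := by ring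
      have e2 : (a' : ℕ) + 2 * n * (b' + 2 * n * c') = a' + 2 * n * b' + (2 * n) ^ 2 * c' := by
        ring
      omega)
  obtain ⟨h3, h4⟩ := digit (N := 2 * n) (by omega) (by omega) h2
  rw [Fin.ext h1, Fin.ext h3, Fin.ext h4]

theorem dp_le (n : ℕ) (e : Fin n × Fin n × Fin n) : dp n e ≤ 4 * n ^ 3 := by
  obtain ⟨a, b, c⟩ := e
  simp only [dp]
  have ha := a.2
  have hb := b.2
  have hc := c.2
  obtain ⟨m, rfl⟩ : ∃ m, n = m + 1 := ⟨n - 1, by omega⟩
  have h1 : 2 * (m + 1) * (b : ℕ) ≤ 2 * (m + 1) * m := Nat.mul_le_mul_left _ (by omega)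
  have h2 : (2 * (m + 1)) ^ 2 * (c : ℕ) ≤ (2 * (m + 1)) ^ 2 * m :=
    Nat.mul_le_mul_left _ (by omega)
  nlinarith

theorem pos_vert (n P : ℕ) (e : Fin n × Fin n × Fin n) (j : Fin 3) :
    pos n P (vert e j) = pos n P (vert e 0) + (j : ℕ) * (P * dp n e + 1) := by
  obtain ⟨a, b, c⟩ := e
  obtain ⟨b1, hb⟩ : ∃ b1, n = b + b1 := ⟨n - b, by have := b.2; omega⟩
  obtain ⟨c1, hc⟩ : ∃ c1, n = c + c1 := ⟨n - c, by have := c.2; omega⟩
  have h1 : n - (b : ℕ) = b1 := by omega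
  have h2 : n - (c : ℕ) = c1 := by omega
  fin_cases j
  · simp
  · simp only [pos, vert, dp, Fin.mk_one, Fin.isValue, one_ne_zero, if_false, if_true, h2, h1,
      one_mul]
    have h3 : (2 * n) ^ 2 * n = (2 * n) ^ 2 * c + (2 * n) ^ 2 * c1 := by
      rw [← mul_add, ← hc]
    have h4 : 2 * n * n = 2 * n * b + 2 * n * b1 := by
      rw [← mul_add, ← hb]
    rw [h3, h4]
    ring
  · have h0 : (⟨2, by omega⟩ : Fin 3) = 2 := rfl
    simp only [pos, vert, dp, Fin.isValue, if_true, h2, h1, Fin.reduceFinMk, Fin.reduceEq,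
      if_false]
    have h3 : (2 * n) ^ 2 * n = (2 * n) ^ 2 * c + (2 * n) ^ 2 * c1 := by
      rw [← mul_add, ← hc]
    have h4 : 2 * n * n = 2 * n * b + 2 * n * b1 := by
      rw [← mul_add, ← hb]
    have h5 : 2 * (2 * n) ^ 2 * n = 2 * ((2 * n) ^ 2 * n) := by ring
    rw [h5, h3, h4]
    ring

theorem pos_inj (n P : ℕ) (hP : 3 ≤ P) : Function.Injective (pos n P) := by
  have key : ∀ (v : Fin 3 × Fin n × Fin n), ∃ x, pos n P v = (v.1 : ℕ) + P * x ∧
      (v.1 = 0 → x = 2 * n * ((n - v.2.1) + 4 * n * (n - v.2.2))) ∧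
      (v.1 = 1 → x = 1 + 2 * n * n + (2 * n) ^ 2 * n + (v.2.1 + (2 * n) ^ 2 * (n - v.2.2))) ∧
      (v.1 = 2 → x = 2 * n * n + 2 * (2 * n) ^ 2 * n + 2 + 2 * (v.2.1 + n * v.2.2)) := by
    rintro ⟨j, b, c⟩
    fin_cases j
    · refine ⟨2 * n * ((n - b) + 4 * n * (n - c)), ?_, fun _ => rfl, by simp, by simp⟩
      simp only [pos, Fin.zero_eta, Fin.isValue, if_true, zero_add]
      congr 1
      ring
    · refine ⟨1 + 2 * n * n + (2 * n) ^ 2 * n + (b + (2 * n) ^ 2 * (n - c)), ?_, by simp,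
        fun _ => rfl, by simp⟩
      simp only [pos, Fin.mk_one, Fin.isValue, one_ne_zero, if_false, if_true]
      ring
    · refine ⟨2 * n * n + 2 * (2 * n) ^ 2 * n + 2 + 2 * (b + n * c), ?_, by simp, by simp,
        fun _ => rfl⟩
      simp only [pos, Fin.isValue, Fin.reduceFinMk, Fin.reduceEq, if_false]
      ring
  rintro ⟨j, b, c⟩ ⟨j', b', c'⟩ h
  obtain ⟨x, hx, h0, h1, h2⟩ := key (j, b, c)
  obtain ⟨x', hx', h0', h1', h2'⟩ := key (j', b', c')
  rw [hx, hx'] at h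
  simp only at h h0 h1 h2 h0' h1' h2'
  obtain ⟨hj, hxx⟩ := digit (by have := j.2; omega) (by have := j'.2; omega) h
  have hj' : j = j' := Fin.ext hj
  subst hj'
  have hb := b.2
  have hb' := b'.2
  have hc := c.2
  have hc' := c'.2
  have hj3 : j = 0 ∨ j = 1 ∨ j = 2 := by fin_cases j <;> simp
  have hn0 : 0 < n := by omega
  rcases hj3 with hj3 | hj3 | hj3
  · have h3 := h0 hj3
    have h4 := h0' hj3
    rw [hxx, h4] at h3
    have h5 := Nat.eq_of_mul_eq_mul_left (by omega) h3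
    obtain ⟨h6, h7⟩ := digit (by omega) (by omega) h5
    have h8 : b' = b := Fin.ext (by omega)
    have h9 : c' = c := Fin.ext (by omega)
    rw [h8, h9]
  · have h3 := h1 hj3
    have h4 := h1' hj3
    rw [hxx, h4] at h3
    have h5 := Nat.add_left_cancel h3
    have hn2 : n ≤ (2 * n) ^ 2 := by nlinarith
    obtain ⟨h6, h7⟩ := digit (by omega) (by omega) h5
    have h8 : b' = b := Fin.ext (by omega)
    have h9 : c' = c := Fin.ext (by omega)
    rw [h8, h9]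
  · have h3 := h2 hj3
    have h4 := h2' hj3
    rw [hxx, h4] at h3
    have h5 := Nat.eq_of_mul_eq_mul_left (by omega) (Nat.add_left_cancel h3)
    obtain ⟨h6, h7⟩ := digit (by omega) (by omega) h5
    have h8 : b' = b := Fin.ext (by omega)
    have h9 : c' = c := Fin.ext (by omega)
    rw [h8, h9]

theorem pos_le (n P : ℕ) (hn : 1 ≤ n) (hP : 3 ≤ P) (v : Fin 3 × Fin n × Fin n) :
    pos n P v ≤ P * (20 * n ^ 3) := by
  obtain ⟨j, b, c⟩ := v
  have hb : (b : ℕ) ≤ n := b.2.le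
  have hc : (c : ℕ) ≤ n := c.2.le
  have hb' : n - (b : ℕ) ≤ n := Nat.sub_le _ _
  have hc' : n - (c : ℕ) ≤ n := Nat.sub_le _ _
  have h2 : n ^ 2 ≤ n ^ 3 := Nat.pow_le_pow_right hn (by omega)
  have h1 : n ≤ n ^ 3 := by
    calc n = n ^ 1 := (pow_one n).symm
      _ ≤ n ^ 3 := Nat.pow_le_pow_right hn (by omega)
  have h0 : 1 ≤ n ^ 3 := Nat.one_le_pow _ _ hn
  have e1 : 2 * n * (n - (b : ℕ)) ≤ 2 * n ^ 2 := by nlinarith
  have e2 : (2 * n) ^ 2 * (n - (c : ℕ)) ≤ 4 * n ^ 3 := by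
    calc (2 * n) ^ 2 * (n - (c : ℕ)) ≤ (2 * n) ^ 2 * n := Nat.mul_le_mul_left _ hc'
      _ = 4 * n ^ 3 := by ring
  have e3 : 2 * n * n = 2 * n ^ 2 := by ring
  have e4 : (2 * n) ^ 2 * n = 4 * n ^ 3 := by ring
  have e5 : 2 * n * (c : ℕ) ≤ 2 * n ^ 2 := by nlinarith
  have key : ∃ x, pos n P (j, b, c) ≤ P * x + P ∧ x + 1 ≤ 20 * n ^ 3 := by
    fin_cases j
    · refine ⟨2 * n * (n - b) + 2 * (2 * n) ^ 2 * (n - c), ?_, ?_⟩
      · simp only [pos, Fin.zero_eta, Fin.isValue, if_true]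
        omega
      · have : 2 * (2 * n) ^ 2 * (n - (c : ℕ)) = 2 * ((2 * n) ^ 2 * (n - (c : ℕ))) := by ring
        rw [this]; omega
    · refine ⟨1 + b + 2 * n * n + (2 * n) ^ 2 * n + (2 * n) ^ 2 * (n - c), ?_, ?_⟩
      · simp only [pos, Fin.mk_one, Fin.isValue, one_ne_zero, if_false, if_true]
        omega
      · rw [e3, e4]; omega
    · refine ⟨2 * n * n + 2 * (2 * n) ^ 2 * n + 2 + 2 * b + 2 * n * c, ?_, ?_⟩
      · simp only [pos, Fin.isValue, Fin.reduceFinMk, Fin.reduceEq, if_false]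
        omega
      · have : 2 * (2 * n) ^ 2 * n = 8 * n ^ 3 := by ring
        rw [e3, this]; omega
  obtain ⟨x, hx, hx'⟩ := key
  calc pos n P (j, b, c) ≤ P * x + P := hx
    _ = P * (x + 1) := by ring
    _ ≤ P * (20 * n ^ 3) := Nat.mul_le_mul_left _ hx'

end Pool.Agent.Lib.TripleDiv
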