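import Pool.Agent.Lib.MP_def522_nt.GoodTCore
import Pool.Agent.Lib.MP_def522_nt.AvgOmega

set_option autoImplicit false

namespace Pool.Agent.Lib.TripleDiv

open Finset

/-! T8 -/
theorem good_t {V : Type*} [Fintype V] [Nonempty V] (R z0 Y : ℕ) (hR : 1 ≤ R) (α β : V → ℕ)
    (hz : 8 * Fintype.card V ≤ z0) (hY : 8 * Fintype.card V * Y ≤ 2 ^ R)
    (hα : ∀ g, ∀ t < 2 ^ R, ∀ p, p.Prime → p ∣ α g * t + β g → ¬ p ∣ α g)
    (hz0 : ∀ g, ∀ t < 2 ^ R, ∀ p, p.Prime → p ∣ α g * t + β g → z0 < p)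
    (hL : ∀ g, ∀ t < 2 ^ R, 0 < α g * t + β g ∧ α g * t + β g ≤ Y ^ 2) :
    ∃ t < 2 ^ R, (∀ g, Squarefree (α g * t + β g)) ∧
      ∑ g, (α g * t + β g).primeFactors.card
        ≤ 2 * Fintype.card V * (4 * (Nat.log 2 R + 1) + 4) := by
  have hK : 1 ≤ Fintype.card V := Fintype.card_pos
  have hYR : Y ≤ 2 ^ R := le_trans (by nlinarith) hY
  have hY2 : Y ^ 2 ≤ 2 ^ (2 * R) := by
    calc Y ^ 2 ≤ (2 ^ R) ^ 2 := Nat.pow_le_pow_left hYR 2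
      _ = 2 ^ (2 * R) := by rw [← pow_mul, mul_comm]
  refine good_t_core R z0 Y (4 * (Nat.log 2 R + 1) + 4) α β hz hY (by omega) hα hz0 hL ?_
  intro g
  have h := avg_omega R (α g) (β g) hR (hα g)
    (fun t ht => ⟨(hL g t ht).1, (hL g t ht).2.trans hY2⟩)
  refine h.trans (le_of_eq ?_)
  push_cast
  ring

end Pool.Agent.Lib.TripleDiv
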