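import Pool.Agent.Lib.MP_def522_nt.NotSqfree

set_option autoImplicit false

namespace Pool.Agent.Lib.TripleDiv

open Finset

theorem good_t_core {V : Type*} [Fintype V] [Nonempty V] (R z0 Y W : ℕ) (α β : V → ℕ)
    (hz : 8 * Fintype.card V ≤ z0) (hY : 8 * Fintype.card V * Y ≤ 2 ^ R) (hW : 1 ≤ W)
    (hα : ∀ g, ∀ t < 2 ^ R, ∀ p, p.Prime → p ∣ α g * t + β g → ¬ p ∣ α g)
    (hz0 : ∀ g, ∀ t < 2 ^ R, ∀ p, p.Prime → p ∣ α g * t + β g → z0 < p)
    (hL : ∀ g, ∀ t < 2 ^ R, 0 < α g * t + β g ∧ α g * t + β g ≤ Y ^ 2)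
    (havg : ∀ g, ∑ t ∈ range (2 ^ R), ((α g * t + β g).primeFactors.card : ℝ) ≤ 2 ^ R * (W : ℝ)) :
    ∃ t < 2 ^ R, (∀ g, Squarefree (α g * t + β g)) ∧
      ∑ g, (α g * t + β g).primeFactors.card ≤ 2 * Fintype.card V * W := by
  classical
  set K := Fintype.card V with hK
  have hKpos : 1 ≤ K := Fintype.card_pos
  have hz1 : 1 ≤ z0 := by omega
  set B := (range (2 ^ R)).filter (fun t => ∃ g, ¬ Squarefree (α g * t + β g)) with hB
  -- size of the bad set
  have hBsub : B ⊆ (univ : Finset V).biUnion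
      (fun g => (range (2 ^ R)).filter (fun t => ¬ Squarefree (α g * t + β g))) := by
    intro t ht
    simp only [hB, Finset.mem_filter] at ht
    obtain ⟨ht, g, hg⟩ := ht
    simp only [Finset.mem_biUnion, Finset.mem_univ, true_and, Finset.mem_filter]
    exact ⟨g, ht, hg⟩
  have hBcard : (B.card : ℝ) ≤ K * (2 ^ R / z0 + Y) := by
    have h1 : B.card ≤ ∑ g : V,
        ((range (2 ^ R)).filter (fun t => ¬ Squarefree (α g * t + β g))).card :=
      (Finset.card_le_card hBsub).trans Finset.card_biUnion_le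
    have h2 : (B.card : ℝ) ≤ ∑ g : V,
        (((range (2 ^ R)).filter (fun t => ¬ Squarefree (α g * t + β g))).card : ℝ) := by
      exact_mod_cast h1
    refine h2.trans ?_
    calc ∑ g : V, (((range (2 ^ R)).filter (fun t => ¬ Squarefree (α g * t + β g))).card : ℝ)
        ≤ ∑ _g : V, (2 ^ R / (z0 : ℝ) + Y) := by
          apply Finset.sum_le_sum
          intro g _
          exact card_not_squarefree R (α g) (β g) z0 Y hz1 (hα g) (hz0 g) (hL g)
      _ = K * (2 ^ R / z0 + Y) := by rw [Finset.sum_const, Finset.card_univ, nsmul_eq_mul]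
  have h2R : (0 : ℝ) < 2 ^ R := by positivity
  have hz0pos : (0 : ℝ) < z0 := by exact_mod_cast hz1
  have hBle : (B.card : ℝ) ≤ 2 ^ R / 4 := by
    have h1 : (K : ℝ) * (2 ^ R / z0) ≤ 2 ^ R / 8 := by
      have hz' : (8 : ℝ) * K ≤ z0 := by exact_mod_cast hz
      rw [mul_div_assoc', div_le_div_iff₀ hz0pos (by norm_num)]
      nlinarith
    have h2 : (K : ℝ) * Y ≤ 2 ^ R / 8 := by
      have hY' : (8 : ℝ) * K * Y ≤ 2 ^ R := by exact_mod_cast hY
      linarith
    have : (K : ℝ) * (2 ^ R / z0 + Y) = K * (2 ^ R / z0) + K * Y := by ring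
    linarith
  by_contra hcon
  push Not at hcon
  -- every good t has a large sum
  have hbig : ∀ t ∈ (range (2 ^ R)) \ B, (2 * K * W : ℝ) ≤
      ∑ g, ((α g * t + β g).primeFactors.card : ℝ) := by
    intro t ht
    simp only [Finset.mem_sdiff, hB, Finset.mem_filter, Finset.mem_range, not_and, not_exists,
      not_not] at ht
    have h := hcon t ht.1 (ht.2 ht.1)
    have h' : ((2 * K * W : ℕ) : ℝ) < ((∑ g, (α g * t + β g).primeFactors.card : ℕ) : ℝ) := by
      exact_mod_cast h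
    push_cast at h'
    exact h'.le
  have hBs : B ⊆ range (2 ^ R) := Finset.filter_subset _ _
  have hcard : (((range (2 ^ R)) \ B).card : ℝ) = 2 ^ R - B.card := by
    have h := Finset.card_sdiff_add_card_eq_card hBs
    rw [Finset.card_range] at h
    have h' : (((range (2 ^ R)) \ B).card : ℝ) + B.card = ((2 ^ R : ℕ) : ℝ) := by
      exact_mod_cast h
    rw [Nat.cast_pow, Nat.cast_ofNat] at h'
    linarith
  have hlow : (2 * K * W : ℝ) * (2 ^ R - B.card) ≤
      ∑ t ∈ range (2 ^ R), ∑ g, ((α g * t + β g).primeFactors.card : ℝ) := by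
    calc (2 * K * W : ℝ) * (2 ^ R - B.card)
        = ∑ _t ∈ (range (2 ^ R)) \ B, (2 * K * W : ℝ) := by
          rw [Finset.sum_const, nsmul_eq_mul, hcard]; ring
      _ ≤ ∑ t ∈ (range (2 ^ R)) \ B, ∑ g, ((α g * t + β g).primeFactors.card : ℝ) :=
          Finset.sum_le_sum hbig
      _ ≤ ∑ t ∈ range (2 ^ R), ∑ g, ((α g * t + β g).primeFactors.card : ℝ) := by
          exact Finset.sum_le_sum_of_subset_of_nonneg (Finset.sdiff_subset)
            (fun i _ _ => Finset.sum_nonneg (fun g _ => Nat.cast_nonneg _))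
  have hup : ∑ t ∈ range (2 ^ R), ∑ g, ((α g * t + β g).primeFactors.card : ℝ) ≤
      K * (2 ^ R * (W : ℝ)) := by
    rw [Finset.sum_comm]
    calc ∑ g, ∑ t ∈ range (2 ^ R), ((α g * t + β g).primeFactors.card : ℝ)
        ≤ ∑ _g : V, (2 ^ R * (W : ℝ)) := Finset.sum_le_sum (fun g _ => havg g)
      _ = K * (2 ^ R * (W : ℝ)) := by rw [Finset.sum_const, Finset.card_univ, nsmul_eq_mul]
  have hKW : (1 : ℝ) ≤ K * W := by
    have : 1 ≤ K * W := Nat.mul_pos hKpos hW
    exact_mod_cast this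
  have hfin : (2 * K * W : ℝ) * (2 ^ R - B.card) ≤ K * (2 ^ R * (W : ℝ)) := hlow.trans hup
  nlinarith [mul_nonneg (sub_nonneg.2 hBle) (by linarith : (0 : ℝ) ≤ (K : ℝ) * W)]

end Pool.Agent.Lib.TripleDiv
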