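import Pool.Agent.Lib.MP_def522_nt.Defs

/-!
# Labels of the edges by counting
-/

set_option autoImplicit false

namespace Pool.Agent.Lib.TripleDiv

open Finset

/-- `2 (M - 1) ^ M ≤ M ^ M` -/
private lemma two_mul_pow_le (x : ℕ) : 2 * x ^ (x + 1) ≤ (x + 1) ^ (x + 1) := by
  have h : x ^ (x + 1) + (x + 1) * x ^ x ≤ (x + 1) ^ (x + 1) := by
    have key : ∀ m : ℕ, x ^ (m + 1) + (m + 1) * x ^ m ≤ (x + 1) ^ (m + 1) := by
      intro m
      induction m with
      | zero => simp
      | succ m ih =>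
        calc x ^ (m + 1 + 1) + (m + 1 + 1) * x ^ (m + 1)
            ≤ (x ^ (m + 1) + (m + 1) * x ^ m) * (x + 1) := by
              have : (m + 1) * x ^ m * x = (m + 1) * x ^ (m + 1) := by ring
              have e1 : (x ^ (m + 1) + (m + 1) * x ^ m) * (x + 1)
                = x ^ (m + 1 + 1) + (m + 1 + 1) * x ^ (m + 1) + (m + 1) * x ^ m := by
                  ring
              omega
          _ ≤ (x + 1) ^ (m + 1) * (x + 1) := Nat.mul_le_mul_right _ ih
          _ = (x + 1) ^ (m + 1 + 1) := by rw [pow_succ (x + 1) (m + 1)]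
    exact key x
  calc 2 * x ^ (x + 1) ≤ x ^ (x + 1) + (x + 1) * x ^ x := by
        have : (x + 1) * x ^ x = x ^ (x + 1) + x ^ x := by ring
        omega
    _ ≤ (x + 1) ^ (x + 1) := h

/-- `(M - 1) ^ g * 2 ^ s ≤ M ^ g` for `M s ≤ g`. -/
private lemma pow_gain (x s g : ℕ) (h : (x + 1) * s ≤ g) : x ^ g * 2 ^ s ≤ (x + 1) ^ g := by
  obtain ⟨r, rfl⟩ := Nat.exists_eq_add_of_le h
  rw [pow_add, pow_add, pow_mul, pow_mul]
  calc (x ^ (x + 1)) ^ s * x ^ r * 2 ^ s = (2 * x ^ (x + 1)) ^ s * x ^ r := by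
        rw [mul_pow]; ring
    _ ≤ ((x + 1) ^ (x + 1)) ^ s * (x + 1) ^ r :=
        Nat.mul_le_mul (Nat.pow_le_pow_left (two_mul_pow_le x) s)
          (Nat.pow_le_pow_left (by omega) r)

theorem labels_abs {E V : Type*} [Fintype E] [Fintype V] [DecidableEq V] (C s : ℕ)
    (v : E → Fin 3 → V) (hE : 2 * (C + 1) ^ 3 * s ≤ Fintype.card E)
    (hs : (C + 2) ^ Fintype.card V < 2 ^ s) :
    ∃ k : E → Fin 3 → ℕ, (∀ e j, k e j ≤ C) ∧ ∀ f : V → ℕ,
      2 * (univ.filter (fun e : E => ∃ j, C < f (v e j))).card ≤ Fintype.card E →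
      ∃ e, ∀ j, k e j + f (v e j) = C := by
  classical
  obtain ⟨x, hx⟩ : ∃ x, (C + 1) ^ 3 = x + 1 :=
    ⟨(C + 1) ^ 3 - 1, by have := Nat.one_le_pow 3 (C + 1) (by omega); omega⟩
  -- the allowed labels at one edge
  let A : (V → Fin (C + 2)) → E → Finset (Fin 3 → Fin (C + 1)) := fun f e =>
    univ.filter fun κ => ¬ ∀ j, (κ j : ℕ) + f (v e j) = C
  let good : (V → Fin (C + 2)) → Finset E := fun f =>
    univ.filter fun e => ¬ ∃ j, C < (f (v e j) : ℕ)
  let F : Finset (V → Fin (C + 2)) := univ.filter fun f =>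
    2 * (univ.filter (fun e : E => ∃ j, C < (f (v e j) : ℕ))).card ≤ Fintype.card E
  have hcard : Fintype.card (Fin 3 → Fin (C + 1)) = x + 1 := by
    rw [Fintype.card_fun, Fintype.card_fin, Fintype.card_fin, hx]
  have hA1 : ∀ f e, (A f e).card ≤ x + 1 := fun f e => by
    rw [← hcard]
    exact card_le_univ _
  have hA2 : ∀ f, ∀ e ∈ good f, (A f e).card ≤ x := by
    intro f e he
    have he' := (mem_filter.1 he).2
    push Not at he'
    let κ : Fin 3 → Fin (C + 1) := fun j => ⟨C - f (v e j), by omega⟩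
    have hκ : κ ∉ A f e := by
      intro h
      refine (mem_filter.1 h).2 fun j => ?_
      have := he' j
      show C - (f (v e j) : ℕ) + f (v e j) = C
      omega
    have h1 : (A f e).card < Fintype.card (Fin 3 → Fin (C + 1)) := by
      rw [← Finset.card_univ]
      refine card_lt_card ⟨subset_univ _, fun h => hκ (h (mem_univ κ))⟩
    omega
  have hgood : ∀ f ∈ F, (x + 1) * s ≤ (good f).card := by
    intro f hf
    have hf' := (mem_filter.1 hf).2
    have h1 := card_filter_add_card_filter_not (s := (univ : Finset E))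
      (fun e => ∃ j, C < (f (v e j) : ℕ))
    rw [Finset.card_univ] at h1
    have h2 : (good f).card = (univ.filter fun e : E => ¬ ∃ j, C < (f (v e j) : ℕ)).card := rfl
    have h3 : 2 * ((x + 1) * s) ≤ Fintype.card E := by
      rw [← hx]
      calc 2 * ((C + 1) ^ 3 * s) = 2 * (C + 1) ^ 3 * s := by ring
        _ ≤ _ := hE
    omega
  have hprod : ∀ f ∈ F, (Fintype.piFinset (A f)).card * 2 ^ s ≤ (x + 1) ^ Fintype.card E := by
    intro f hf
    rw [Fintype.card_piFinset]
    have h1 : ∏ e, (A f e).card ≤ x ^ (good f).card * (x + 1) ^ (univ \ good f).card := by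
      rw [← Finset.prod_sdiff (subset_univ (good f)), mul_comm]
      refine Nat.mul_le_mul ?_ ?_
      · rw [← Finset.prod_const]
        exact Finset.prod_le_prod' (hA2 f)
      · rw [← Finset.prod_const]
        exact Finset.prod_le_prod' fun e _ => hA1 f e
    have h2 : (good f).card + (univ \ good f).card = Fintype.card E := by
      rw [← Finset.card_univ, ← Finset.card_sdiff_add_card_eq_card (subset_univ (good f))]
      omega
    calc (∏ e, (A f e).card) * 2 ^ s
        ≤ x ^ (good f).card * (x + 1) ^ (univ \ good f).card * 2 ^ s :=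
          Nat.mul_le_mul_right _ h1
      _ = (x ^ (good f).card * 2 ^ s) * (x + 1) ^ (univ \ good f).card := by ring
      _ ≤ (x + 1) ^ (good f).card * (x + 1) ^ (univ \ good f).card :=
          Nat.mul_le_mul_right _ (pow_gain x s _ (hgood f hf))
      _ = (x + 1) ^ Fintype.card E := by rw [← pow_add, h2]
  -- the union bound
  have hunion : (F.biUnion fun f => Fintype.piFinset (A f)).card <
      Fintype.card (E → Fin 3 → Fin (C + 1)) := by
    have h1 : (F.biUnion fun f => Fintype.piFinset (A f)).card * 2 ^ s <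
        2 ^ s * (x + 1) ^ Fintype.card E := by
      calc (F.biUnion fun f => Fintype.piFinset (A f)).card * 2 ^ s
          ≤ (∑ f ∈ F, (Fintype.piFinset (A f)).card) * 2 ^ s :=
            Nat.mul_le_mul_right _ card_biUnion_le
        _ = ∑ f ∈ F, (Fintype.piFinset (A f)).card * 2 ^ s := by rw [Finset.sum_mul]
        _ ≤ ∑ f ∈ F, (x + 1) ^ Fintype.card E := Finset.sum_le_sum hprod
        _ = F.card * (x + 1) ^ Fintype.card E := by rw [Finset.sum_const, smul_eq_mul]
        _ ≤ (C + 2) ^ Fintype.card V * (x + 1) ^ Fintype.card E := by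
            refine Nat.mul_le_mul_right _ ?_
            have : F.card ≤ Fintype.card (V → Fin (C + 2)) := card_le_univ _
            rwa [Fintype.card_fun, Fintype.card_fin] at this
        _ < 2 ^ s * (x + 1) ^ Fintype.card E :=
            Nat.mul_lt_mul_of_pos_right hs (Nat.pow_pos (by omega))
    rw [Fintype.card_fun, hcard]
    rw [mul_comm] at h1
    exact Nat.lt_of_mul_lt_mul_left h1
  obtain ⟨k, hk⟩ : ∃ k, k ∉ F.biUnion fun f => Fintype.piFinset (A f) := by
    by_contra h
    push Not at h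
    rw [Finset.eq_univ_iff_forall.2 h, Finset.card_univ] at hunion
    exact lt_irrefl _ hunion
  refine ⟨fun e j => k e j, fun e j => Nat.lt_succ_iff.1 (k e j).2, fun f hf => ?_⟩
  let f' : V → Fin (C + 2) := fun w => ⟨min (f w) (C + 1), by omega⟩
  have hval : ∀ w, (f' w : ℕ) = min (f w) (C + 1) := fun w => rfl
  have hf' : f' ∈ F := by
    refine mem_filter.2 ⟨mem_univ _, le_trans (Nat.mul_le_mul_left 2 (card_le_card ?_)) hf⟩
    intro e he
    obtain ⟨j, hj⟩ := (mem_filter.1 he).2
    refine mem_filter.2 ⟨mem_univ _, j, ?_⟩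
    rw [hval] at hj
    omega
  have h1 : k ∉ Fintype.piFinset (A f') := fun h => hk (mem_biUnion.2 ⟨f', hf', h⟩)
  rw [Fintype.mem_piFinset] at h1
  push Not at h1
  obtain ⟨e, he⟩ := h1
  refine ⟨e, fun j => ?_⟩
  have h2 : ∀ j, (k e j : ℕ) + f' (v e j) = C := by
    by_contra h
    exact he (mem_filter.2 ⟨mem_univ _, h⟩)
  have h3 := h2 j
  rw [hval] at h3
  show (k e j : ℕ) + f (v e j) = C
  omega

private lemma card_fibre {n : ℕ} (w : Fin 3 × Fin n × Fin n) :
    (univ.filter fun e : Fin n × Fin n × Fin n => ∃ j, vert e j = w).card ≤ n := by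
  classical
  -- the free coordinate determines the edge
  let φ : Fin n × Fin n × Fin n → Fin n := fun e =>
    if w.1 = 0 then e.1 else if w.1 = 1 then e.2.1 else e.2.2
  have h := Finset.card_le_card_of_injOn (s := univ.filter fun e : Fin n × Fin n × Fin n =>
    ∃ j, vert e j = w) (t := univ) φ (fun _ _ => mem_univ _) (by
      rintro ⟨a, b, c⟩ he ⟨a', b', c'⟩ he' hφ
      simp only [mem_coe, mem_filter, mem_univ, true_and] at he he'
      obtain ⟨j, rfl⟩ := he
      obtain ⟨j', hj'⟩ := he'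
      have hj : j' = j := congrArg Prod.fst hj'
      subst hj
      simp only [vert, Prod.mk.injEq, true_and] at hj'
      simp only [φ, vert] at hφ
      have h3 : j' = 0 ∨ j' = 1 ∨ j' = 2 := by fin_cases j' <;> simp
      rcases h3 with rfl | rfl | rfl
      · simp at hj' hφ
        simp [hj', hφ]
      · simp at hj' hφ
        simp [hj', hφ]
      · simp at hj' hφ
        simp [hj', hφ])
  simpa using h

theorem labels (C n : ℕ) (hn : n = 6 * (C + 1) ^ 3 * (C + 2)) :
    ∃ k : (Fin n × Fin n × Fin n) → Fin 3 → ℕ, (∀ e j, k e j ≤ C) ∧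
      ∀ f : (Fin 3 × Fin n × Fin n) → ℕ,
      2 * (univ.filter (fun v : Fin 3 × Fin n × Fin n => C < f v)).card ≤ n ^ 2 →
      ∃ e, ∀ j, k e j + f (vert e j) = C := by
  classical
  have hn0 : 0 < n := by rw [hn]; positivity
  obtain ⟨k, hk, h⟩ := labels_abs (E := Fin n × Fin n × Fin n) (V := Fin 3 × Fin n × Fin n) C
    (3 * n ^ 2 * (C + 2)) vert (by
      simp only [Fintype.card_prod, Fintype.card_fin]
      refine le_of_eq ?_
      calc 2 * (C + 1) ^ 3 * (3 * n ^ 2 * (C + 2)) = (6 * (C + 1) ^ 3 * (C + 2)) * n ^ 2 := by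
            ring
        _ = n * n ^ 2 := by rw [← hn]
        _ = n * (n * n) := by ring) (by
      simp only [Fintype.card_prod, Fintype.card_fin]
      have h1 : C + 2 < 2 ^ (C + 2) := Nat.lt_two_pow_self
      calc (C + 2) ^ (3 * (n * n)) < (2 ^ (C + 2)) ^ (3 * (n * n)) :=
            Nat.pow_lt_pow_left h1 (by positivity)
        _ = 2 ^ (3 * n ^ 2 * (C + 2)) := by rw [← pow_mul]; congr 1; ring)
  refine ⟨k, hk, fun f hf => h f ?_⟩
  have h1 : (univ.filter fun e : Fin n × Fin n × Fin n => ∃ j, C < f (vert e j)) ⊆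
      (univ.filter (fun v : Fin 3 × Fin n × Fin n => C < f v)).biUnion fun w =>
        univ.filter fun e : Fin n × Fin n × Fin n => ∃ j, vert e j = w := by
    intro e he
    obtain ⟨j, hj⟩ := (mem_filter.1 he).2
    exact mem_biUnion.2 ⟨vert e j, mem_filter.2 ⟨mem_univ _, hj⟩,
      mem_filter.2 ⟨mem_univ _, j, rfl⟩⟩
  have h2 := (card_le_card h1).trans (card_biUnion_le_card_mul _ _ n fun w _ => card_fibre w)
  simp only [Fintype.card_prod, Fintype.card_fin]
  calc 2 * (univ.filter fun e : Fin n × Fin n × Fin n => ∃ j, C < f (vert e j)).card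
      ≤ 2 * ((univ.filter (fun v : Fin 3 × Fin n × Fin n => C < f v)).card * n) :=
        Nat.mul_le_mul_left 2 h2
    _ = (2 * (univ.filter (fun v : Fin 3 × Fin n × Fin n => C < f v)).card) * n := by ring
    _ ≤ n ^ 2 * n := Nat.mul_le_mul_right _ hf
    _ = n * (n * n) := by ring

end Pool.Agent.Lib.TripleDiv
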