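import Pool.Agent.Lib.MP_def522_nt.Arith

set_option autoImplicit false

namespace Pool.Agent.Lib.TripleDiv

open Finset

/-- Chinese remaindering over a finite set, with a bound. -/
theorem crtFinset {I : Type*} (t : Finset I) (s a : I → ℕ) (hs : ∀ i ∈ t, s i ≠ 0)
    (hc : Set.Pairwise (t : Set I) (Function.onFun Nat.Coprime s)) :
    ∃ x, x < ∏ i ∈ t, s i ∧ ∀ i ∈ t, x ≡ a i [MOD s i] :=
  ⟨Nat.chineseRemainderOfFinset a s t hs hc,
    Nat.chineseRemainderOfFinset_lt_prod a s hs hc,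
    (Nat.chineseRemainderOfFinset a s t hs hc).2⟩

/-- The residues modulo the primes of one `δ`. -/
theorem stepM_one (C δ : ℕ) (q : Fin 3 → Fin C → ℕ) (k : Fin 3 → ℕ) (hk : ∀ j, k j ≤ C)
    (hδ : 0 < δ) (h3 : ∀ p, p.Prime → p ∣ δ → 3 < p)
    (hq : ∀ j i, (q j i).Prime)
    (hinj : Function.Injective (fun ji : Fin 3 × Fin C => q ji.1 ji.2))
    (hfac : ∀ j i, δ.factorization (q j i) = 2) :
    ∃ u0 : ℕ, ∀ u, 0 < u → u ≡ u0 [MOD δ ^ 4] → ∀ j : Fin 3,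
      δ.divisors.card * (u + (j : ℕ)).divisors.card
        = 2 ^ (k j) * (δ * (u + (j : ℕ))).divisors.card := by
  classical
  -- the target residue of `u` modulo `p ^ 4`
  let A : ℕ → ℕ := fun p =>
    if h : ∃ ji : Fin 3 × Fin C, p = q ji.1 ji.2 ∧ (ji.2 : ℕ) < k ji.1 then
      p ^ 3 - (h.choose.1 : ℕ) else 1
  obtain ⟨u0, -, hu0⟩ := crtFinset δ.primeFactors (fun p => p ^ 4) A
    (fun p hp => (pow_pos (Nat.prime_of_mem_primeFactors hp).pos 4).ne')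
    (fun p hp p' hp' hne => Nat.Coprime.pow _ _
      ((Nat.coprime_primes (Nat.prime_of_mem_primeFactors hp)
        (Nat.prime_of_mem_primeFactors hp')).2 hne))
  refine ⟨u0, fun u hu huu j => ?_⟩
  have hmod : ∀ p, p.Prime → p ∣ δ → u ≡ A p [MOD p ^ 4] := by
    intro p hp hpd
    have h1 : u ≡ u0 [MOD p ^ 4] := huu.of_dvd (pow_dvd_pow_of_dvd hpd 4)
    exact h1.trans (hu0 p (Nat.mem_primeFactors.2 ⟨hp, hpd, hδ.ne'⟩))
  have hqd : ∀ j i, q j i ∣ δ := fun j i =>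
    Nat.dvd_of_factorization_pos (by rw [hfac]; decide)
  have hq3 : ∀ j i, 3 < q j i := fun j i => h3 _ (hq j i) (hqd j i)
  -- designated primes
  have hA1 : ∀ (ji : Fin 3 × Fin C), (ji.2 : ℕ) < k ji.1 →
      A (q ji.1 ji.2) = (q ji.1 ji.2) ^ 3 - (ji.1 : ℕ) := by
    intro ji hlt
    have hex : ∃ ji' : Fin 3 × Fin C, q ji.1 ji.2 = q ji'.1 ji'.2 ∧ (ji'.2 : ℕ) < k ji'.1 :=
      ⟨ji, rfl, hlt⟩
    have hch : hex.choose = ji := (hinj hex.choose_spec.1).symm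
    show (if h : ∃ ji' : Fin 3 × Fin C, q ji.1 ji.2 = q ji'.1 ji'.2 ∧ (ji'.2 : ℕ) < k ji'.1 then
      (q ji.1 ji.2) ^ 3 - (h.choose.1 : ℕ) else 1) = _
    rw [dif_pos hex, hch]
  have hA0 : ∀ p, (¬ ∃ ji : Fin 3 × Fin C, p = q ji.1 ji.2 ∧ (ji.2 : ℕ) < k ji.1) → A p = 1 := by
    intro p hp
    exact dif_neg hp
  -- designated primes: congruence of `u + j`
  have hdes : ∀ (ji : Fin 3 × Fin C), (ji.2 : ℕ) < k ji.1 →
      u + (ji.1 : ℕ) ≡ (q ji.1 ji.2) ^ 3 [MOD (q ji.1 ji.2) ^ 4] := by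
    intro ji hlt
    have h1 := (hmod _ (hq ji.1 ji.2) (hqd ji.1 ji.2)).add_right (ji.1 : ℕ)
    rw [hA1 ji hlt, Nat.sub_add_cancel] at h1
    · exact h1
    · have h2 := hq3 ji.1 ji.2
      have h4 : (ji.1 : ℕ) < 3 := ji.1.2
      calc (ji.1 : ℕ) ≤ q ji.1 ji.2 := by omega
        _ ≤ (q ji.1 ji.2) ^ 3 := Nat.le_self_pow (by decide) _
  let S : Finset ℕ := (Finset.univ.filter fun i : Fin C => (i : ℕ) < k j).image fun i => q j i
  have hScard : S.card = k j := by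
    have hinj' : Function.Injective fun i : Fin C => q j i := by
      intro i i' h
      have : ((j, i) : Fin 3 × Fin C) = (j, i') := hinj h
      exact (Prod.mk.inj this).2
    rw [Finset.card_image_of_injective _ hinj', Fin.card_filter_val_lt]
    exact min_eq_right (hk j)
  have key := share_card (δ := δ) (u := u + (j : ℕ)) hδ.ne' (by omega) S ?_ ?_
  · rw [key, hScard]
  · intro p hp hpd hpu
    by_cases hex : ∃ ji : Fin 3 × Fin C, p = q ji.1 ji.2 ∧ (ji.2 : ℕ) < k ji.1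
    · obtain ⟨ji, rfl, hlt⟩ := hex
      by_cases hj : ji.1 = j
      · subst hj
        exact Finset.mem_image.2 ⟨ji.2, Finset.mem_filter.2 ⟨Finset.mem_univ _, hlt⟩, rfl⟩
      · exfalso
        -- `p` divides `u + j` and `u + ji.1`, so it divides the difference
        have h1 : q ji.1 ji.2 ∣ u + (ji.1 : ℕ) := by
          have h2 := (hdes ji hlt).of_dvd (Dvd.intro_left ((q ji.1 ji.2) ^ 3) (pow_succ _ 3).symm)
          exact (h2.dvd_iff dvd_rfl).2 (dvd_pow_self _ (by decide))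
        have h3' := hq3 ji.1 ji.2
        have hj1 : (ji.1 : ℕ) < 3 := ji.1.2
        have hj2 : (j : ℕ) < 3 := j.2
        have hne : (ji.1 : ℕ) ≠ (j : ℕ) := fun h => hj (Fin.ext h)
        rcases Nat.lt_or_gt_of_ne hne with hlt' | hgt'
        · have h4 := (Nat.dvd_sub hpu h1)
          have h5 := Nat.le_of_dvd (by omega) h4
          omega
        · have h4 := (Nat.dvd_sub h1 hpu)
          have h5 := Nat.le_of_dvd (by omega) h4
          omega
    · exfalso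
      have h1 := (hmod p hp hpd).add_right (j : ℕ)
      rw [hA0 p hex] at h1
      have h2 := h1.of_dvd (Dvd.intro_left (p ^ 3) (pow_succ _ 3).symm)
      have h4 : p ∣ 1 + (j : ℕ) := (h2.dvd_iff dvd_rfl).1 hpu
      have h5 := Nat.le_of_dvd (by omega) h4
      have h6 := h3 p hp hpd
      have hj2 : (j : ℕ) < 3 := j.2
      omega
  · intro p hpS
    obtain ⟨i, hi, rfl⟩ := Finset.mem_image.1 hpS
    have hlt : (i : ℕ) < k j := (Finset.mem_filter.1 hi).2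
    refine ⟨hq j i, hfac j i, ?_⟩
    have hc := hdes (j, i) hlt
    have hc' : u + (j : ℕ) ≡ (q j i) ^ 3 [MOD (q j i) ^ 4] := hc
    have hp := hq j i
    have hne : u + (j : ℕ) ≠ 0 := by omega
    have hd3 : (q j i) ^ 3 ∣ u + (j : ℕ) :=
      ((hc'.of_dvd (pow_dvd_pow _ (by decide : 3 ≤ 4))).dvd_iff dvd_rfl).2 dvd_rfl
    have hd4 : ¬ (q j i) ^ 4 ∣ u + (j : ℕ) := by
      intro h
      have h' := (hc'.dvd_iff dvd_rfl).1 h
      exact absurd ((Nat.pow_dvd_pow_iff_le_right hp.one_lt).1 h') (by decide)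
    have h5 : 3 ≤ (u + (j : ℕ)).factorization (q j i) :=
      (hp.pow_dvd_iff_le_factorization hne).1 hd3
    have h6 : ¬ 4 ≤ (u + (j : ℕ)).factorization (q j i) := fun h =>
      hd4 ((hp.pow_dvd_iff_le_factorization hne).2 h)
    omega

/-! T5 -/
theorem stepM {E : Type*} [Fintype E] (C : ℕ) (δ x : E → ℕ) (q : E → Fin 3 → Fin C → ℕ)
    (k : E → Fin 3 → ℕ) (hk : ∀ e j, k e j ≤ C) (hδ : ∀ e, 0 < δ e)
    (hcop : Pairwise (fun e e' => Nat.Coprime (δ e) (δ e')))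
    (h3 : ∀ e p, p.Prime → p ∣ δ e → 3 < p)
    (hq : ∀ e j i, (q e j i).Prime)
    (hinj : ∀ e, Function.Injective (fun ji : Fin 3 × Fin C => q e ji.1 ji.2))
    (hfac : ∀ e j i, (δ e).factorization (q e j i) = 2) :
    ∃ m1, 0 < m1 ∧ m1 ≤ 2 * ∏ e, (δ e) ^ 5 ∧ ∀ e, ∃ u, 0 < u ∧ m1 + x e = δ e * u ∧
      ∀ j : Fin 3, (δ e).divisors.card * (u + (j : ℕ)).divisors.card
        = 2 ^ (k e j) * (δ e * (u + (j : ℕ))).divisors.card := by
  classical
  choose u0 hu0 using fun e => stepM_one C (δ e) (q e) (k e) (hk e) (hδ e) (h3 e) (hq e)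
    (hinj e) (hfac e)
  obtain ⟨m0, hm0, hmod⟩ := crtFinset Finset.univ (fun e => (δ e) ^ 5)
    (fun e => δ e * u0 e + ((δ e) ^ 5 - 1) * x e)
    (fun e _ => (pow_pos (hδ e) 5).ne')
    (fun e _ e' _ hne => Nat.Coprime.pow _ _ (hcop hne))
  have hprod : 0 < ∏ e, (δ e) ^ 5 := Finset.prod_pos fun e _ => pow_pos (hδ e) 5
  refine ⟨m0 + ∏ e, (δ e) ^ 5, by omega, by omega, fun e => ?_⟩
  have h5 : 0 < (δ e) ^ 5 := pow_pos (hδ e) 5
  have hdvd : (δ e) ^ 5 ∣ ∏ e, (δ e) ^ 5 := Finset.dvd_prod_of_mem _ (Finset.mem_univ e)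
  have h1 : m0 + (∏ e, (δ e) ^ 5) + x e ≡ δ e * u0 e [MOD (δ e) ^ 5] := by
    have a1 : m0 + (∏ e, (δ e) ^ 5) ≡ m0 [MOD (δ e) ^ 5] := by
      exact (Nat.modEq_zero_iff_dvd.2 hdvd).add_left m0
    have a2 := (a1.trans (hmod e (Finset.mem_univ e))).add_right (x e)
    have a3 : δ e * u0 e + ((δ e) ^ 5 - 1) * x e + x e = δ e * u0 e + (δ e) ^ 5 * x e := by
      obtain ⟨r, hr⟩ : ∃ r, (δ e) ^ 5 = r + 1 := ⟨(δ e) ^ 5 - 1, by omega⟩
      rw [hr, Nat.add_sub_cancel]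
      ring
    rw [a3] at a2
    have a4 : δ e * u0 e + (δ e) ^ 5 * x e ≡ δ e * u0 e [MOD (δ e) ^ 5] := by
      have := (Nat.modEq_zero_iff_dvd.2 (Dvd.intro (x e) (rfl : (δ e) ^ 5 * x e = _))).add_left
        (δ e * u0 e)
      simpa using this
    exact a2.trans a4
  have h2 : δ e ∣ m0 + (∏ e, (δ e) ^ 5) + x e := by
    have b1 := h1.of_dvd (dvd_pow_self (δ e) (by decide : (5 : ℕ) ≠ 0))
    exact (b1.dvd_iff dvd_rfl).2 (Dvd.intro _ rfl)
  obtain ⟨u, hu⟩ := h2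
  have hupos : 0 < u := by
    rcases Nat.eq_zero_or_pos u with h | h
    · rw [h, Nat.mul_zero] at hu
      omega
    · exact h
  refine ⟨u, hupos, hu, ?_⟩
  refine hu0 e u hupos ?_
  rw [hu] at h1
  have e5 : (δ e) ^ 5 = δ e * (δ e) ^ 4 := by ring
  rw [e5] at h1
  exact Nat.ModEq.mul_left_cancel' (hδ e).ne' h1

end Pool.Agent.Lib.TripleDiv
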