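import Pool.Agent.Lib.MP_def522_nt.Defs

set_option autoImplicit false

namespace Pool.Agent.Lib.TripleDiv

open Finset

/-- a strictly increasing sequence of primes with explicit bounds, from Bertrand -/
theorem exists_prime_seq (N0 : ℕ) (hN : 1 ≤ N0) :
    ∃ q : ℕ → ℕ, StrictMono q ∧ ∀ i, (q i).Prime ∧ N0 < q i ∧ q i ≤ N0 * 2 ^ (i + 1) := by
  classical
  have hb : ∀ n : ℕ, ∃ p, n ≠ 0 → p.Prime ∧ n < p ∧ p ≤ 2 * n := by
    intro n
    by_cases h : n = 0
    · exact ⟨0, fun h' => absurd h h'⟩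
    · obtain ⟨p, hp, h1, h2⟩ := Nat.exists_prime_lt_and_le_two_mul n h
      exact ⟨p, fun _ => ⟨hp, h1, h2⟩⟩
  choose nx hnx using hb
  let q : ℕ → ℕ := fun i => Nat.rec (nx N0) (fun _ y => nx y) i
  have q0 : q 0 = nx N0 := rfl
  have qs : ∀ i, q (i + 1) = nx (q i) := fun i => rfl
  have hq : ∀ i, (q i).Prime ∧ N0 < q i ∧ q i ≤ N0 * 2 ^ (i + 1) := by
    intro i
    induction i with
    | zero =>
      obtain ⟨h1, h2, h3⟩ := hnx N0 (by omega)
      refine ⟨by rw [q0]; exact h1, by rw [q0]; exact h2, by rw [q0]; simpa [mul_comm] using h3⟩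
    | succ i ih =>
      obtain ⟨h1, h2, h3⟩ := hnx (q i) ih.1.ne_zero
      refine ⟨by rw [qs]; exact h1, by rw [qs]; omega, ?_⟩
      rw [qs]
      calc nx (q i) ≤ 2 * q i := h3
        _ ≤ 2 * (N0 * 2 ^ (i + 1)) := by have := ih.2.2; omega
        _ = N0 * 2 ^ (i + 1 + 1) := by ring
  refine ⟨q, strictMono_nat_of_lt_succ fun i => ?_, hq⟩
  rw [qs]
  exact (hnx (q i) (hq i).1.ne_zero).2.1

theorem exists_primes {I : Type*} [Fintype I] (N0 : ℕ) (hN : 1 ≤ N0) :
    ∃ q : I → ℕ, Function.Injective q ∧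
      ∀ i, (q i).Prime ∧ N0 < q i ∧ q i ≤ N0 * 2 ^ Fintype.card I := by
  obtain ⟨q, hmono, hq⟩ := exists_prime_seq N0 hN
  refine ⟨fun i => q (Fintype.equivFin I i), ?_, ?_⟩
  · intro i j hij
    have h1 := hmono.injective hij
    exact (Fintype.equivFin I).injective (Fin.val_injective h1)
  · intro i
    obtain ⟨h1, h2, h3⟩ := hq (Fintype.equivFin I i)
    refine ⟨h1, h2, h3.trans ?_⟩
    apply Nat.mul_le_mul_left
    apply Nat.pow_le_pow_right (by norm_num)
    exact (Fintype.equivFin I i).isLt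

theorem crt {I : Type*} [Fintype I] (s : I → ℕ) (hs : ∀ i, 0 < s i)
    (hc : Pairwise (fun i j => Nat.Coprime (s i) (s j))) (a : I → ℕ) :
    ∃ x, x < ∏ i, s i ∧ ∀ i, x ≡ a i [MOD s i] := by
  classical
  have hs' : ∀ i ∈ (univ : Finset I), s i ≠ 0 := fun i _ => (hs i).ne'
  have hc' : Set.Pairwise (↑(univ : Finset I)) (Function.onFun Nat.Coprime s) := by
    intro i _ j _ hij
    exact hc hij
  let c := Nat.chineseRemainderOfFinset a s univ hs' hc'
  refine ⟨c.1, ?_, fun i => c.2 i (mem_univ i)⟩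
  exact Nat.chineseRemainderOfFinset_lt_prod a s hs' hc'

end Pool.Agent.Lib.TripleDiv
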