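import Mathlib
import Pool.Agent.Lib.MP_def522_nt.Defs
import Pool.Agent.Lib.MP_def522_nt.Primes

set_option autoImplicit false

namespace Pool.Agent.Lib.TripleDiv

open Finset

/-- number of divisors of a product of powers of distinct primes -/
theorem card_div_prod_pow {I : Type*} [Fintype I] (q : I → ℕ) (hq : ∀ i, (q i).Prime)
    (hinj : Function.Injective q) (e : I → ℕ) :
    (∏ i, q i ^ e i).divisors.card = ∏ i, (e i + 1) := by
  classical
  have key : ∀ s : Finset I,
      (∏ i ∈ s, q i ^ e i).divisors.card = ∏ i ∈ s, (e i + 1) := by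
    intro s
    induction s using Finset.induction_on with
    | empty => simp
    | insert i s his ih =>
      rw [Finset.prod_insert his, Finset.prod_insert his]
      have hcop : Nat.Coprime (q i ^ e i) (∏ j ∈ s, q j ^ e j) := by
        apply Nat.Coprime.prod_right
        intro j hj
        apply Nat.Coprime.pow
        rw [Nat.coprime_primes (hq i) (hq j)]
        intro h
        have := hinj h
        subst this
        exact his hj
      rw [Nat.Coprime.card_divisors_mul hcop, ih, Nat.divisors_prime_pow (hq i)]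
      simp
  simpa using key univ

theorem card_div_eq_prod (w : ℕ) (hw : 0 < w) (U : Finset ℕ) (hU : w.primeFactors ⊆ U) :
    w.divisors.card = ∏ p ∈ U, (w.factorization p + 1) := by
  rw [Nat.card_divisors hw.ne']
  apply Finset.prod_subset hU
  intro p _ hp
  have : w.factorization p = 0 := by
    rw [← Nat.support_factorization] at hp
    exact Finsupp.notMem_support_iff.1 hp
  simp [this]

theorem two_pow_sum_le (w : ℕ) (hw : 0 < w) (U : Finset ℕ) (hU : w.primeFactors ⊆ U) :
    2 ^ (∑ p ∈ U, w.factorization p) ≤ w := by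
  have h0 : ∑ p ∈ w.primeFactors, w.factorization p = ∑ p ∈ U, w.factorization p := by
    apply Finset.sum_subset hU
    intro p _ hp
    rw [← Nat.support_factorization] at hp
    exact Finsupp.notMem_support_iff.1 hp
  rw [← h0, ← Finset.prod_pow_eq_pow_sum]
  calc ∏ p ∈ w.primeFactors, 2 ^ w.factorization p
      ≤ ∏ p ∈ w.primeFactors, p ^ w.factorization p := by
        apply Finset.prod_le_prod'
        intro p hp
        exact Nat.pow_le_pow_left (Nat.prime_of_mem_primeFactors hp).two_le _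
    _ = w := Nat.prod_factorization_pow_eq_self hw.ne'

theorem sum_fact_le (w a : ℕ) (hw : 0 < w) (ha : w ≤ 2 ^ a) (U : Finset ℕ)
    (hU : w.primeFactors ⊆ U) : ∑ p ∈ U, w.factorization p ≤ a := by
  have h := (two_pow_sum_le w hw U hU).trans ha
  exact (Nat.pow_le_pow_iff_right (by norm_num)).1 h

theorem card_primeFactors_le (w a : ℕ) (hw : 0 < w) (ha : w ≤ 2 ^ a) :
    w.primeFactors.card ≤ a := by
  refine le_trans ?_ (sum_fact_le w a hw ha w.primeFactors (Finset.Subset.refl _))
  rw [Finset.card_eq_sum_ones]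
  apply Finset.sum_le_sum
  intro p hp
  have h1 := Nat.prime_of_mem_primeFactors hp
  have h2 := Nat.dvd_of_mem_primeFactors hp
  exact (h1.dvd_iff_one_le_factorization hw.ne').1 h2

/-- T6 -/
theorem stepV {V : Type*} [Fintype V] [DecidableEq V] (w : V → ℕ) (hw : ∀ g, 0 < w g)
    (hinj : Function.Injective w) (a z0 : ℕ) (hz : 1 ≤ z0) (ha : ∀ g, w g ≤ 2 ^ a) :
    ∃ (Q c0 T : ℕ) (b α β : V → ℕ), 0 < Q ∧ Q ≤ 2 ^ bV (Fintype.card V) a z0 ∧ c0 ≤ 2 * Q ∧
      (∀ p, p.Prime → p ≤ z0 → p ∣ Q) ∧ 0 < T ∧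
      ∀ g, 0 < b g ∧ (w g).Coprime (b g) ∧
        (w g).divisors.card * (b g).divisors.card = T ∧ w g ∣ Q ∧ b g ∣ Q ∧ α g ∣ Q ∧
        z0 * w g ≤ c0 ∧
        ∀ t, w g + (c0 + Q * t) = w g * b g * (α g * t + β g) ∧
          (α g * t + β g).Coprime Q := by
  classical
  set K := Fintype.card V with hK
  -- the set of primes
  set U : Finset ℕ := univ.biUnion (fun g => (w g).primeFactors) with hUdef
  have hUsub : ∀ g, (w g).primeFactors ⊆ U := fun g =>
    Finset.subset_biUnion_of_mem (fun g => (w g).primeFactors) (mem_univ g)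
  have hUcard : U.card ≤ K * a := by
    calc U.card ≤ ∑ g : V, (w g).primeFactors.card := Finset.card_biUnion_le
      _ ≤ ∑ _g : V, a := Finset.sum_le_sum (fun g _ => card_primeFactors_le _ _ (hw g) (ha g))
      _ = K * a := by simp [hK]
  set Q1 : ℕ := z0.factorial * ∏ g, (w g) ^ 2 with hQ1
  have hprodpos : 0 < ∏ g, (w g) ^ 2 := Finset.prod_pos (fun g _ => pow_pos (hw g) 2)
  have hQ1pos : 0 < Q1 := Nat.mul_pos (Nat.factorial_pos _) hprodpos
  have hQ1le : Q1 ≤ 2 ^ (z0 ^ 2 + 2 * K * a) := by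
    rw [pow_add]
    apply Nat.mul_le_mul
    · calc z0.factorial ≤ z0 ^ z0 := Nat.factorial_le_pow z0
        _ ≤ (2 ^ z0) ^ z0 := Nat.pow_le_pow_left (Nat.lt_two_pow_self).le _
        _ = 2 ^ (z0 ^ 2) := by rw [← pow_mul, sq]
    · calc ∏ g, (w g) ^ 2 ≤ ∏ _g : V, (2 ^ a) ^ 2 :=
            Finset.prod_le_prod' (fun g _ => Nat.pow_le_pow_left (ha g) 2)
        _ = 2 ^ (2 * K * a) := by
            rw [Finset.prod_const, ← pow_mul, ← pow_mul, Finset.card_univ]
            congr 1
            rw [← hK]; ring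
  -- A g
  have hdvd : ∀ g, ∃ A, Q1 = w g * A ∧ (∀ p, p.Prime → p ∣ Q1 → p ∣ A) := by
    intro g
    refine ⟨z0.factorial * (w g * ∏ g' ∈ univ.erase g, (w g') ^ 2), ?_, ?_⟩
    · rw [hQ1, ← Finset.mul_prod_erase univ (fun g => (w g) ^ 2) (mem_univ g)]
      ring
    · intro p hp hpQ
      rw [hQ1, ← Finset.mul_prod_erase univ (fun g => (w g) ^ 2) (mem_univ g)] at hpQ
      rcases (Nat.Prime.dvd_mul hp).1 hpQ with h | h
      · exact Dvd.dvd.mul_right h _
      · rcases (Nat.Prime.dvd_mul hp).1 h with h | h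
        · exact Dvd.dvd.mul_left (Dvd.dvd.mul_right (hp.dvd_of_dvd_pow h) _) _
        · exact Dvd.dvd.mul_left (Dvd.dvd.mul_left h _) _
  choose A hA hAp using hdvd
  have hApos : ∀ g, 0 < A g := by
    intro g
    rcases Nat.eq_zero_or_pos (A g) with h | h
    · have := hA g
      rw [h, mul_zero] at this
      omega
    · exact h
  have hAle : ∀ g, A g ≤ Q1 := by
    intro g
    rw [hA g]
    exact Nat.le_mul_of_pos_left _ (hw g)
  have hAinj : ∀ g g', A g = A g' → g = g' := by
    intro g g' h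
    apply hinj
    have h1 := hA g
    have h2 := hA g'
    rw [h1, h] at h2
    exact Nat.eq_of_mul_eq_mul_right (hApos g') h2
  -- fresh primes
  obtain ⟨r, hrinj, hr⟩ := exists_primes (I := V × V × U) Q1 hQ1pos
  have hMcard : Fintype.card (V × V × U) ≤ K ^ 3 * a := by
    rw [Fintype.card_prod, Fintype.card_prod, Fintype.card_coe, ← hK]
    calc K * (K * U.card) ≤ K * (K * (K * a)) := by gcongr
      _ = K ^ 3 * a := by ring
  set M : ℕ := (z0 ^ 2 + 2 * K * a) + K ^ 3 * a with hM
  have hrM : ∀ i, r i ≤ 2 ^ M := by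
    intro i
    calc r i ≤ Q1 * 2 ^ Fintype.card (V × V × U) := (hr i).2.2
      _ ≤ 2 ^ (z0 ^ 2 + 2 * K * a) * 2 ^ (K ^ 3 * a) :=
          Nat.mul_le_mul hQ1le (Nat.pow_le_pow_right (by norm_num) hMcard)
      _ = 2 ^ M := by rw [← pow_add]
  -- exponents
  set ex : V → V × U → ℕ := fun g i => if i.1 = g then 0 else (w i.1).factorization i.2 with hex
  set b : V → ℕ := fun g => ∏ i : V × U, r (g, i) ^ ex g i with hb
  have hbpos : ∀ g, 0 < b g := fun g =>
    Finset.prod_pos (fun i _ => pow_pos (hr (g, i)).1.pos _)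
  have hsumU : ∀ g, ∑ p : U, (w g).factorization p ≤ a := by
    intro g
    rw [Finset.sum_coe_sort U (fun p => (w g).factorization p)]
    exact sum_fact_le _ _ (hw g) (ha g) _ (hUsub g)
  have hexsum : ∀ g, ∑ i, ex g i ≤ K * a := by
    intro g
    rw [Fintype.sum_prod_type]
    calc ∑ x : V, ∑ y : U, ex g (x, y) ≤ ∑ _x : V, a := by
          apply Finset.sum_le_sum
          intro x _
          refine le_trans ?_ (hsumU x)
          apply Finset.sum_le_sum
          intro y _
          simp only [hex]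
          split_ifs <;> simp
      _ = K * a := by simp [hK]
  have hble : ∀ g, b g ≤ 2 ^ (M * (K * a)) := by
    intro g
    calc b g ≤ ∏ i : V × U, (2 ^ M) ^ ex g i :=
          Finset.prod_le_prod' (fun i _ => Nat.pow_le_pow_left (hrM _) _)
      _ = (2 ^ M) ^ (∑ i, ex g i) := Finset.prod_pow_eq_pow_sum _ _ _
      _ ≤ (2 ^ M) ^ (K * a) := Nat.pow_le_pow_right (by positivity) (hexsum g)
      _ = 2 ^ (M * (K * a)) := by rw [← pow_mul]
  -- prime divisors of b g
  have hbprime : ∀ g p, p.Prime → p ∣ b g → ∃ i, p = r (g, i) := by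
    intro g p hp hpb
    obtain ⟨i, _, hi⟩ := (Prime.dvd_finsetProd_iff hp.prime _).1 hpb
    have := hp.dvd_of_dvd_pow hi
    exact ⟨i, (Nat.prime_dvd_prime_iff_eq hp (hr _).1).1 this⟩
  have hbgt : ∀ g p, p.Prime → p ∣ b g → Q1 < p := by
    intro g p hp hpb
    obtain ⟨i, rfl⟩ := hbprime g p hp hpb
    exact (hr _).2.1
  have hbcop : ∀ g g', g ≠ g' → Nat.Coprime (b g) (b g') := by
    intro g g' hgg
    apply Nat.Coprime.symm
    rw [Nat.coprime_comm]
    by_contra hcon
    obtain ⟨p, hp, h1, h2⟩ := Nat.Prime.not_coprime_iff_dvd.1 hcon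
    obtain ⟨i, hi⟩ := hbprime g p hp h1
    obtain ⟨j, hj⟩ := hbprime g' p hp h2
    rw [hi] at hj
    have := hrinj hj
    exact hgg (Prod.ext_iff.1 this).1
  have hcopQ1 : ∀ g x, x ∣ Q1 → Nat.Coprime x (b g) := by
    intro g x hx
    by_contra hcon
    obtain ⟨p, hp, h1, h2⟩ := Nat.Prime.not_coprime_iff_dvd.1 hcon
    have h3 := hbgt g p hp h2
    have h4 := Nat.le_of_dvd hQ1pos (h1.trans hx)
    omega
  -- divisors of b g
  have hbdiv : ∀ g, (b g).divisors.card = ∏ g' : V, (if g' = g then 1 else (w g').divisors.card) := by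
    intro g
    have h1 : (b g).divisors.card = ∏ i : V × U, (ex g i + 1) := by
      apply card_div_prod_pow (fun i => r (g, i)) (fun i => (hr _).1)
      intro i j hij
      have := hrinj hij
      exact (Prod.ext_iff.1 this).2
    rw [h1, Fintype.prod_prod_type]
    apply Finset.prod_congr rfl
    intro g' _
    split_ifs with h
    · apply Finset.prod_eq_one
      intro p _
      simp [hex, h]
    · rw [card_div_eq_prod (w g') (hw g') U (hUsub g'),
        ← Finset.prod_coe_sort U (fun p => (w g').factorization p + 1)]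
      apply Finset.prod_congr rfl
      intro p _
      simp [hex, h]
  set Q2 : ℕ := ∏ g, (b g) ^ 2 with hQ2
  have hQ2pos : 0 < Q2 := Finset.prod_pos (fun g _ => pow_pos (hbpos g) 2)
  have hQ2le : Q2 ≤ 2 ^ (2 * K ^ 2 * a * M) := by
    calc Q2 ≤ ∏ _g : V, (2 ^ (M * (K * a))) ^ 2 :=
          Finset.prod_le_prod' (fun g _ => Nat.pow_le_pow_left (hble g) 2)
      _ = 2 ^ (2 * K ^ 2 * a * M) := by
          rw [Finset.prod_const, ← pow_mul, ← pow_mul, Finset.card_univ, ← hK]
          congr 1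
          ring
  -- residues
  have hres : ∀ g, ∃ x, 1 + A g * x ≡ b g [MOD (b g) ^ 2] := by
    intro g
    have hc : Nat.Coprime (A g) ((b g) ^ 2) :=
      Nat.Coprime.pow_right 2 (hcopQ1 g (A g) ⟨w g, by rw [hA g]; ring⟩)
    obtain ⟨y, _, hy⟩ := Nat.exists_mul_mod_eq_of_coprime (b g - 1) hc
      (pow_pos (hbpos g) 2).ne'
    refine ⟨y, ?_⟩
    have h1 : 1 + A g * y ≡ 1 + (b g - 1) [MOD (b g) ^ 2] := Nat.ModEq.add_left 1 hy
    rwa [Nat.add_sub_cancel' (hbpos g)] at h1
  choose x hx using hres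
  obtain ⟨ρ, hρlt, hρ⟩ := crt (fun g => (b g) ^ 2) (fun g => pow_pos (hbpos g) 2)
    (fun g g' hgg => Nat.Coprime.pow 2 2 (hbcop g g' hgg)) x
  have hρg : ∀ g, 1 + A g * ρ ≡ b g [MOD (b g) ^ 2] := by
    intro g
    refine Nat.ModEq.trans ?_ (hx g)
    exact Nat.ModEq.add_left 1 (Nat.ModEq.mul_left (A g) (hρ g))
  have hs : ∀ g, ∃ s, 1 + A g * ρ = b g * s ∧ s ≡ 1 [MOD b g] := by
    intro g
    have h1 : b g ∣ 1 + A g * ρ := by
      have h2 : 1 + A g * ρ ≡ b g [MOD b g] := (hρg g).of_dvd (Dvd.intro (b g) (sq (b g)).symm)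
      exact (h2.dvd_iff (dvd_refl _)).2 (dvd_refl _)
    obtain ⟨s, hs⟩ := h1
    refine ⟨s, hs, ?_⟩
    have h3 := hρg g
    rw [hs, sq] at h3
    have h4 : b g * s ≡ b g * 1 [MOD b g * b g] := by simpa using h3
    exact Nat.ModEq.mul_left_cancel' (hbpos g).ne' h4
  choose s hsb hs1 using hs
  have hc : ∀ g, ∃ c, Q2 = b g * (b g * c) := by
    intro g
    have h1 : (b g) ^ 2 ∣ Q2 := Finset.dvd_prod_of_mem (fun g => (b g) ^ 2) (mem_univ g)
    obtain ⟨c, hc⟩ := h1
    exact ⟨c, by rw [hc]; ring⟩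
  choose c hc using hc
  have hQ1z : z0 ∣ Q1 := Dvd.dvd.mul_right (Nat.dvd_factorial hz le_rfl) _
  refine ⟨Q1 * Q2, Q1 * ρ + Q1 * Q2, ∏ g, (w g).divisors.card, b,
    fun g => A g * (b g * c g), fun g => s g + A g * (b g * c g),
    Nat.mul_pos hQ1pos hQ2pos, ?_, ?_, ?_, ?_, ?_⟩
  · calc Q1 * Q2 ≤ 2 ^ (z0 ^ 2 + 2 * K * a) * 2 ^ (2 * K ^ 2 * a * M) :=
          Nat.mul_le_mul hQ1le hQ2le
      _ = 2 ^ bV K a z0 := by rw [← pow_add, bV]
  · have h1 : ρ ≤ Q2 := hρlt.le
    have h2 : Q1 * ρ ≤ Q1 * Q2 := Nat.mul_le_mul_left _ h1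
    omega
  · intro p hp hpz
    exact Dvd.dvd.mul_right (Dvd.dvd.mul_right (Nat.dvd_factorial hp.pos hpz) _) _
  · exact Finset.prod_pos (fun g _ => Finset.card_pos.2 ⟨1, Nat.one_mem_divisors.2 (hw g).ne'⟩)
  · intro g
    refine ⟨hbpos g, hcopQ1 g (w g) ⟨A g, hA g⟩, ?_, ?_, ?_, ?_, ?_, ?_⟩
    · rw [hbdiv g, ← Finset.mul_prod_erase univ _ (mem_univ g),
        ← Finset.mul_prod_erase univ (fun g => (w g).divisors.card) (mem_univ g)]
      simp only [if_true, one_mul]
      congr 1
      apply Finset.prod_congr rfl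
      intro g' hg'
      rw [if_neg (Finset.ne_of_mem_erase hg')]
    · exact Dvd.dvd.mul_right ⟨A g, hA g⟩ _
    · exact Dvd.dvd.mul_left ⟨b g * c g, hc g⟩ _
    · exact mul_dvd_mul ⟨w g, by rw [hA g]; ring⟩ ⟨b g, by rw [hc g]; ring⟩
    · have h1 : z0 * w g ≤ Q1 := by
        rw [hQ1]
        apply Nat.mul_le_mul (Nat.self_le_factorial z0)
        calc w g ≤ (w g) ^ 2 := Nat.le_self_pow (by norm_num) _
          _ ≤ ∏ g, (w g) ^ 2 := Nat.le_of_dvd hprodpos
              (Finset.dvd_prod_of_mem (fun g => (w g) ^ 2) (mem_univ g))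
      have h2 : Q1 ≤ Q1 * Q2 := Nat.le_mul_of_pos_right _ hQ2pos
      omega
    · intro t
      -- general identity
      have hid : ∀ g, b g * (A g * (b g * c g) * t + (s g + A g * (b g * c g)))
          = 1 + A g * (ρ + Q2 * (t + 1)) := by
        intro g
        have h1 := hsb g
        have h2 : A g * (Q2 * (t + 1)) = b g * (A g * (b g * c g) * t + A g * (b g * c g)) := by
          rw [hc g]; ring
        have h3 : 1 + A g * (ρ + Q2 * (t + 1)) = (1 + A g * ρ) + A g * (Q2 * (t + 1)) := by ring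
        rw [h3, h1, h2]
        ring
      constructor
      · have h1 := hid g
        calc w g + (Q1 * ρ + Q1 * Q2 + Q1 * Q2 * t)
            = w g + Q1 * (ρ + Q2 * (t + 1)) := by ring
          _ = w g * (1 + A g * (ρ + Q2 * (t + 1))) := by rw [hA g]; ring
          _ = w g * b g * (A g * (b g * c g) * t + (s g + A g * (b g * c g))) := by
              rw [← h1]; ring
      · show Nat.Coprime (A g * (b g * c g) * t + (s g + A g * (b g * c g))) (Q1 * Q2)
        by_contra hcon
        obtain ⟨p, hp, hpL, hpQ⟩ := Nat.Prime.not_coprime_iff_dvd.1 hcon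
        have hp1 : p ∣ 1 + A g * (ρ + Q2 * (t + 1)) := by
          rw [← hid g]; exact Dvd.dvd.mul_left hpL _
        have hno : ∀ x y, p ∣ 1 + x * y → ¬ p ∣ x := by
          intro x y h1 h2
          have h3 : p ∣ 1 := (Nat.dvd_add_left (Dvd.dvd.mul_right h2 y)).1 h1
          exact hp.one_lt.ne' (Nat.dvd_one.1 h3)
        rcases (Nat.Prime.dvd_mul hp).1 hpQ with h | h
        · exact hno _ _ hp1 (hAp g p hp h)
        · obtain ⟨g', _, hg'⟩ := (Prime.dvd_finsetProd_iff hp.prime _).1 h
          have hpb : p ∣ b g' := hp.dvd_of_dvd_pow hg'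
          by_cases hgg : g' = g
          · subst hgg
            have h1 : A g' * (b g' * c g') * t + (s g' + A g' * (b g' * c g')) ≡ 1 [MOD b g'] := by
              have h2 : A g' * (b g' * c g') * t + (s g' + A g' * (b g' * c g'))
                  = s g' + b g' * (A g' * c g' * t + A g' * c g') := by ring
              rw [h2]
              have h3 : s g' + b g' * (A g' * c g' * t + A g' * c g') ≡ 1 + 0 [MOD b g'] :=
                Nat.ModEq.add (hs1 g') ((Nat.modEq_zero_iff_dvd).2 (Dvd.intro _ rfl))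
              simpa using h3
            have h2 := (h1.of_dvd hpb)
            have h3 : p ∣ 1 := (h2.dvd_iff (dvd_refl _)).1 hpL
            exact hp.one_lt.ne' (Nat.dvd_one.1 h3)
          · have hp2 : p ∣ 1 + A g' * (ρ + Q2 * (t + 1)) := by
              rw [← hid g']; exact Dvd.dvd.mul_right hpb _
            have hbig : Q1 < p := hbgt g' p hp hpb
            have hAne : A g' ≠ A g := fun h => hgg (hAinj _ _ h)
            set n' := ρ + Q2 * (t + 1) with hn'
            have hpn : ¬ p ∣ n' := by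
              rw [mul_comm] at hp1
              exact hno _ _ hp1
            have e1 : (p : ℤ) ∣ 1 + A g * n' := by exact_mod_cast hp1
            have e2 : (p : ℤ) ∣ 1 + A g' * n' := by exact_mod_cast hp2
            have e3 : (p : ℤ) ∣ ((A g : ℤ) - A g') * n' := by
              have := dvd_sub e1 e2
              have h5 : (1 + A g * n' : ℤ) - (1 + A g' * n') = ((A g : ℤ) - A g') * n' := by ring
              rwa [h5] at this
            rcases (Nat.prime_iff_prime_int.1 hp).dvd_or_dvd e3 with e4 | e4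
            · have e5 : (A g : ℤ) - A g' = 0 := by
                apply Int.eq_zero_of_abs_lt_dvd e4
                rw [abs_lt]
                have h6 := hAle g
                have h7 := hAle g'
                have h8 := hApos g
                have h9 := hApos g'
                constructor <;> omega
              apply hAne
              omega
            · exact hpn (by exact_mod_cast e4)

end Pool.Agent.Lib.TripleDiv
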