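import Pool.Agent.Lib.MP_def522_nt.StepP
import Pool.Agent.Lib.MP_def522_nt.StepM
import Pool.Agent.Lib.MP_def522_nt.StepV
import Pool.Agent.Lib.MP_def522_nt.GoodT
import Pool.Agent.Lib.MP_def522_nt.Labels
import Pool.Agent.Lib.MP_def522_nt.ChooseC
import Pool.Agent.Lib.MP_def522_nt.Geom

set_option autoImplicit false

namespace Pool.Agent.Lib.TripleDiv

open Finset

theorem card_divisors_of_squarefree {n : ℕ} (hn : Squarefree n) :
    n.divisors.card = 2 ^ n.primeFactors.card := by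
  have h0 : n ≠ 0 := hn.ne_zero
  rw [Nat.card_divisors h0]
  rw [Finset.prod_congr rfl (g := fun _ => 2)]
  · simp
  · intro p hp
    have h1 := (Nat.squarefree_iff_factorization_le_one h0).1 hn p
    have h2 : 0 < n.factorization p :=
      (Nat.prime_of_mem_primeFactors hp).factorization_pos_of_dvd h0 (Nat.dvd_of_mem_primeFactors hp)
    omega

theorem card_vert (n : ℕ) : Fintype.card (Fin 3 × Fin n × Fin n) = 3 * n ^ 2 := by
  simp [sq]

theorem card_edge (n : ℕ) : Fintype.card (Fin n × Fin n × Fin n) = n ^ 3 := by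
  simp [pow_succ, mul_assoc]

/-! main -/
set_option maxHeartbeats 1000000 in
theorem main (N : ℕ) : ∃ U, N ≤ U ∧ 0 < U ∧ U.divisors.card = (U + 1).divisors.card ∧
    (U + 1).divisors.card = (U + 2).divisors.card := by
  classical
  obtain ⟨C, hC1, hC⟩ := choose_C N
  obtain ⟨n, hn⟩ : ∃ n, n = fn C := ⟨_, rfl⟩
  have hn1 : 1 ≤ n := by
    rw [hn]; unfold fn
    have : 0 < 6 * (C + 1) ^ 3 * (C + 2) := by positivity
    omega
  obtain ⟨k, hk, hlab⟩ := labels C n hn
  -- step P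
  have hN0 : 3 ≤ fN0 C := by
    unfold fN0
    rw [← hn]
    have : 1 ≤ n ^ 3 := Nat.one_le_pow _ _ hn1
    omega
  have hdpos : ∀ e, 0 < dp n e := by
    intro e; unfold dp; omega
  have hdle : ∀ e, dp n e ≤ fN0 C := by
    intro e; unfold fN0; rw [← hn]; exact dp_le n e
  obtain ⟨P, q, hP3, hPle, hqp, hqinj, hqfac, hbig, hcop⟩ :=
    stepP (fN0 C) C hN0 (dp n) (dp_inj n) hdpos hdle
  rw [card_edge] at hPle
  have hPle' : P ≤ 2 ^ fp C := by
    unfold fp fM
    rw [← hn]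
    exact hPle
  -- step M
  obtain ⟨m1, hm1pos, hm1le, hM⟩ := stepM C (fun e => P * dp n e + 1)
    (fun e => pos n P (vert e 0)) q k hk (fun e => Nat.succ_pos _) hcop
    (fun e p hp hd => lt_of_le_of_lt hN0 (hbig e p hp hd)) hqp hqinj hqfac
  -- size of m1 + pos
  have hδle : ∀ e, P * dp n e + 1 ≤ 2 ^ (fp C + fN0 C) := by
    intro e
    have h1 : fN0 C + 1 ≤ 2 ^ fN0 C := Nat.lt_two_pow_self
    calc P * dp n e + 1 ≤ P * fN0 C + P := by
          have := Nat.mul_le_mul_left P (hdle e)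
          omega
      _ = P * (fN0 C + 1) := by ring
      _ ≤ 2 ^ fp C * 2 ^ fN0 C := Nat.mul_le_mul hPle' h1
      _ = 2 ^ (fp C + fN0 C) := by rw [pow_add]
  have hprod : ∏ e : Fin n × Fin n × Fin n, (P * dp n e + 1) ^ 5
      ≤ 2 ^ (5 * n ^ 3 * (fp C + fN0 C)) := by
    calc ∏ e : Fin n × Fin n × Fin n, (P * dp n e + 1) ^ 5
        ≤ ∏ _e : Fin n × Fin n × Fin n, (2 ^ (fp C + fN0 C)) ^ 5 :=
          Finset.prod_le_prod' fun e _ => Nat.pow_le_pow_left (hδle e) 5
      _ = 2 ^ (5 * n ^ 3 * (fp C + fN0 C)) := by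
          rw [Finset.prod_const, Finset.card_univ, card_edge, ← pow_mul, ← pow_mul,
            mul_comm (fp C + fN0 C)]
  obtain ⟨w, hw⟩ : ∃ w : Fin 3 × Fin n × Fin n → ℕ, w = fun v => m1 + pos n P v := ⟨_, rfl⟩
  have hwpos : ∀ v, 0 < w v := fun v => by simp only [hw]; omega
  have hwinj : Function.Injective w := by
    intro v v' h
    simp only [hw] at h
    exact pos_inj n P hP3 (by omega)
  have hwle : ∀ v, w v ≤ 2 ^ fa C := by
    intro v
    have h1 : pos n P v ≤ 2 ^ fp C * 2 ^ (20 * n ^ 3) :=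
      (pos_le n P hn1 hP3 v).trans (Nat.mul_le_mul hPle' Nat.lt_two_pow_self.le)
    have h2 : m1 ≤ 2 * 2 ^ (5 * n ^ 3 * (fp C + fN0 C)) :=
      hm1le.trans (Nat.mul_le_mul_left 2 hprod)
    have h3 : fa C = 5 * n ^ 3 * (fp C + fN0 C) + fp C + 20 * n ^ 3 + 2 := by
      unfold fa; rw [← hn]
    rw [h3]
    have h4 : 2 ^ fp C * 2 ^ (20 * n ^ 3)
        ≤ 2 ^ (5 * n ^ 3 * (fp C + fN0 C) + fp C + 20 * n ^ 3) := by
      rw [← pow_add]
      exact Nat.pow_le_pow_right (by norm_num) (by omega)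
    have h5 : 2 ^ (5 * n ^ 3 * (fp C + fN0 C))
        ≤ 2 ^ (5 * n ^ 3 * (fp C + fN0 C) + fp C + 20 * n ^ 3) :=
      Nat.pow_le_pow_right (by norm_num) (by omega)
    rw [pow_add _ _ 2]
    simp only [hw]
    omega
  -- step V
  obtain ⟨Q, c0, T, b, α, β, hQ0, hQle, hc0, hQz, hT, hV⟩ :=
    stepV w hwpos hwinj (fa C) (fz C N) (by
      unfold fz fK
      rw [← hn]
      have : 1 ≤ n ^ 2 := Nat.one_le_pow _ _ hn1
      omega) hwle
  rw [card_vert] at hQle
  have hQle' : Q ≤ 2 ^ fQ C N := by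
    unfold fQ fK
    rw [← hn]
    exact hQle
  have hL0 : ∀ v t, 0 < α v * t + β v := by
    intro v t
    obtain ⟨-, -, -, -, -, -, -, h⟩ := hV v
    obtain ⟨h1, -⟩ := h t
    rcases Nat.eq_zero_or_pos (α v * t + β v) with h2 | h2
    · rw [h2, mul_zero] at h1
      have := hwpos v
      omega
    · exact h2
  have hLle : ∀ v t, α v * t + β v ≤ Q * (t + 3) := by
    intro v t
    obtain ⟨hb0, -, -, hwQ, -, -, -, h⟩ := hV v
    obtain ⟨h1, -⟩ := h t
    have h2 : α v * t + β v ≤ w v * b v * (α v * t + β v) :=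
      Nat.le_mul_of_pos_left _ (Nat.mul_pos (hwpos v) hb0)
    have h3 : w v ≤ Q := Nat.le_of_dvd hQ0 hwQ
    calc α v * t + β v ≤ w v * b v * (α v * t + β v) := h2
      _ = w v + (c0 + Q * t) := h1.symm
      _ ≤ Q + (2 * Q + Q * t) := by omega
      _ = Q * (t + 3) := by ring
  have hK : Fintype.card (Fin 3 × Fin n × Fin n) = fK C := by
    rw [card_vert]; unfold fK; rw [← hn]
  have : Nonempty (Fin 3 × Fin n × Fin n) := ⟨(0, ⟨0, hn1⟩, ⟨0, hn1⟩)⟩
  obtain ⟨y, hy⟩ : ∃ y, y = fQ C N + fK C + 5 := ⟨_, rfl⟩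
  have hRy : fR C N = y + 3 + fK C := by
    rw [hy]; unfold fR; ring
  obtain ⟨t, ht, hsq, hsum⟩ := good_t (V := Fin 3 × Fin n × Fin n) (fR C N) (fz C N) (2 ^ y)
    (by unfold fR; omega) α β
    (by rw [hK]; unfold fz; omega)
    (by
      rw [hK, hRy, pow_add, pow_add]
      have h1 : fK C ≤ 2 ^ fK C := Nat.lt_two_pow_self.le
      calc 8 * fK C * 2 ^ y ≤ 8 * 2 ^ fK C * 2 ^ y :=
            Nat.mul_le_mul_right _ (Nat.mul_le_mul_left 8 h1)
        _ = 2 ^ y * 2 ^ 3 * 2 ^ fK C := by ring)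
    (by
      intro v t _ p hp hd hpa
      obtain ⟨-, -, -, -, -, hαQ, -, h⟩ := hV v
      obtain ⟨-, h2⟩ := h t
      exact Nat.Prime.not_coprime_iff_dvd.2 ⟨p, hp, hd, hpa.trans hαQ⟩ h2)
    (by
      intro v t _ p hp hd
      obtain ⟨-, -, -, -, -, -, -, h⟩ := hV v
      obtain ⟨-, h2⟩ := h t
      by_contra hlt
      exact Nat.Prime.not_coprime_iff_dvd.2 ⟨p, hp, hd, hQz p hp (by omega)⟩ h2)
    (by
      intro v t ht
      refine ⟨hL0 v t, (hLle v t).trans ?_⟩
      have h1 : t + 3 ≤ 2 ^ (fR C N + 2) := by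
        rw [pow_add]
        have : 1 ≤ 2 ^ fR C N := Nat.one_le_two_pow
        omega
      calc Q * (t + 3) ≤ 2 ^ fQ C N * 2 ^ (fR C N + 2) := Nat.mul_le_mul hQle' h1
        _ = (2 ^ y) ^ 2 := by
            rw [← pow_add, ← pow_mul,
              show fQ C N + (fR C N + 2) = y * 2 by rw [hRy, hy]; ring])
  -- bad vertices
  obtain ⟨f, hf⟩ : ∃ f : Fin 3 × Fin n × Fin n → ℕ,
      f = fun v => (α v * t + β v).primeFactors.card := ⟨_, rfl⟩
  have hbad : 2 * (univ.filter (fun v : Fin 3 × Fin n × Fin n => C < f v)).card ≤ n ^ 2 := by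
    have h1 : (univ.filter (fun v : Fin 3 × Fin n × Fin n => C < f v)).card * (C + 1)
        ≤ ∑ v, f v := by
      calc (univ.filter (fun v : Fin 3 × Fin n × Fin n => C < f v)).card * (C + 1)
          ≤ ∑ v ∈ univ.filter (fun v : Fin 3 × Fin n × Fin n => C < f v), f v := by
            rw [← smul_eq_mul]
            apply Finset.card_nsmul_le_sum
            intro v hv
            have := (Finset.mem_filter.1 hv).2
            omega
        _ ≤ ∑ v, f v := Finset.sum_le_univ_sum_of_nonneg (fun _ => Nat.zero_le _)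
    have h2 : ∑ v, f v ≤ 2 * (3 * n ^ 2) * (4 * (Nat.log 2 (fR C N) + 1) + 4) := by
      have := hsum
      rw [card_vert] at this
      rw [hf]
      exact this
    have h3 : 2 * (univ.filter (fun v : Fin 3 × Fin n × Fin n => C < f v)).card * (C + 1)
        ≤ n ^ 2 * (C + 1) := by
      calc 2 * (univ.filter (fun v : Fin 3 × Fin n × Fin n => C < f v)).card * (C + 1)
          = 2 * ((univ.filter (fun v : Fin 3 × Fin n × Fin n => C < f v)).card * (C + 1)) := by
            ring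
        _ ≤ 2 * (2 * (3 * n ^ 2) * (4 * (Nat.log 2 (fR C N) + 1) + 4)) :=
            Nat.mul_le_mul_left 2 (h1.trans h2)
        _ = n ^ 2 * (48 * (Nat.log 2 (fR C N) + 2)) := by ring
        _ ≤ n ^ 2 * (C + 1) := Nat.mul_le_mul_left _ hC
    exact Nat.le_of_mul_le_mul_right h3 (Nat.succ_pos C)
  obtain ⟨e, he⟩ := hlab f hbad
  obtain ⟨u, hu0, hu1, hu2⟩ := hM e
  obtain ⟨δ, hδ⟩ : ∃ δ, δ = P * dp n e + 1 := ⟨_, rfl⟩
  rw [← hδ] at hu1
  simp only [← hδ] at hu2
  have hδ0 : 0 < δ := by omega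
  have hwv : ∀ j : Fin 3, w (vert e j) = δ * (u + (j : ℕ)) := by
    intro j
    simp only [hw]
    rw [pos_vert n P e j, ← hδ, ← add_assoc, hu1]
    ring
  have hUeq : ∀ j : Fin 3, δ * ((u + (j : ℕ)) * b (vert e j) * (α (vert e j) * t + β (vert e j)))
      = w (vert e 0) + (j : ℕ) * δ + (c0 + Q * t) := by
    intro j
    obtain ⟨-, -, -, -, -, -, -, h⟩ := hV (vert e j)
    obtain ⟨h1, -⟩ := h t
    have h2 : w (vert e j) = w (vert e 0) + (j : ℕ) * δ := by
      rw [hwv j, hwv 0]; simp; ring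
    calc δ * ((u + (j : ℕ)) * b (vert e j) * (α (vert e j) * t + β (vert e j)))
        = (δ * (u + (j : ℕ))) * b (vert e j) * (α (vert e j) * t + β (vert e j)) := by ring
      _ = w (vert e j) * b (vert e j) * (α (vert e j) * t + β (vert e j)) := by rw [hwv j]
      _ = w (vert e j) + (c0 + Q * t) := h1.symm
      _ = w (vert e 0) + (j : ℕ) * δ + (c0 + Q * t) := by rw [h2]
  have hdiv : ∀ j : Fin 3, δ.divisors.card *
      ((u + (j : ℕ)) * b (vert e j) * (α (vert e j) * t + β (vert e j))).divisors.card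
      = T * 2 ^ C := by
    intro j
    obtain ⟨hb0, hwb, hTj, hwQ, hbQ, -, -, h⟩ := hV (vert e j)
    obtain ⟨-, hLQ⟩ := h t
    have hud : u + (j : ℕ) ∣ w (vert e j) := by
      rw [hwv j]; exact Dvd.intro_left _ rfl
    have hc1 : Nat.Coprime (u + (j : ℕ)) (b (vert e j)) := Nat.Coprime.coprime_dvd_left hud hwb
    have hc2 : Nat.Coprime ((u + (j : ℕ)) * b (vert e j)) (α (vert e j) * t + β (vert e j)) := by
      apply Nat.Coprime.mul_left
      · exact (Nat.Coprime.coprime_dvd_right (hud.trans hwQ) hLQ).symm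
      · exact (Nat.Coprime.coprime_dvd_right hbQ hLQ).symm
    rw [hc2.card_divisors_mul, hc1.card_divisors_mul,
      card_divisors_of_squarefree (hsq (vert e j))]
    have h1 := hu2 j
    rw [← hwv j] at h1
    calc δ.divisors.card * ((u + (j : ℕ)).divisors.card * (b (vert e j)).divisors.card
          * 2 ^ (α (vert e j) * t + β (vert e j)).primeFactors.card)
        = (δ.divisors.card * (u + (j : ℕ)).divisors.card) * (b (vert e j)).divisors.card
          * 2 ^ f (vert e j) := by rw [hf]; ring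
      _ = (2 ^ k e j * (w (vert e j)).divisors.card) * (b (vert e j)).divisors.card
          * 2 ^ f (vert e j) := by rw [h1]
      _ = ((w (vert e j)).divisors.card * (b (vert e j)).divisors.card)
          * 2 ^ (k e j + f (vert e j)) := by rw [pow_add]; ring
      _ = T * 2 ^ C := by rw [hTj, he j]
  have hδd : 0 < δ.divisors.card := Finset.card_pos.2 ⟨1, Nat.one_mem_divisors.2 hδ0.ne'⟩
  set U := (u + ((0 : Fin 3) : ℕ)) * b (vert e 0) * (α (vert e 0) * t + β (vert e 0)) with hU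
  have hU0 : δ * U = w (vert e 0) + (c0 + Q * t) := by
    have := hUeq 0
    rw [← hU] at this
    simpa using this
  have hU1 : (u + ((1 : Fin 3) : ℕ)) * b (vert e 1) * (α (vert e 1) * t + β (vert e 1)) = U + 1 := by
    have h1 := hUeq 1
    apply Nat.eq_of_mul_eq_mul_left hδ0
    rw [h1, mul_add, hU0]
    simp; ring
  have hU2 : (u + ((2 : Fin 3) : ℕ)) * b (vert e 2) * (α (vert e 2) * t + β (vert e 2)) = U + 2 := by
    have h1 := hUeq 2
    apply Nat.eq_of_mul_eq_mul_left hδ0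
    rw [h1, mul_add, hU0]
    simp; ring
  have hd0 := hdiv 0
  have hd1 := hdiv 1
  have hd2 := hdiv 2
  rw [← hU] at hd0
  rw [hU1] at hd1
  rw [hU2] at hd2
  refine ⟨U, ?_, ?_, ?_, ?_⟩
  · obtain ⟨-, -, -, -, -, -, hzw, -⟩ := hV (vert e 0)
    have h1 : δ ≤ w (vert e 0) := by
      rw [hwv 0]
      exact Nat.le_mul_of_pos_right _ (by simpa using hu0)
    have h2 : δ * N ≤ δ * U := by
      calc δ * N ≤ w (vert e 0) * fz C N := Nat.mul_le_mul h1 (by unfold fz; omega)
        _ = fz C N * w (vert e 0) := by ring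
        _ ≤ c0 := hzw
        _ ≤ δ * U := by rw [hU0]; omega
    exact Nat.le_of_mul_le_mul_left h2 hδ0
  · rcases Nat.eq_zero_or_pos U with h | h
    · rw [h, mul_zero] at hU0
      have := hwpos (vert e 0)
      omega
    · exact h
  · exact Nat.eq_of_mul_eq_mul_left hδd (hd0.trans hd1.symm)
  · exact Nat.eq_of_mul_eq_mul_left hδd (hd1.trans hd2.symm)

end Pool.Agent.Lib.TripleDiv
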