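import Mathlib

set_option autoImplicit false

namespace Pool.Agent.Lib.TripleDiv

open Finset

theorem card_sq_dvd (X α β p : ℕ) (hp : p.Prime) (hα : ¬ p ∣ α) :
    ((range X).filter (fun t => p ^ 2 ∣ α * t + β)).card ≤ X / p ^ 2 + 1 := by
  have hp0 : 0 < p ^ 2 := pow_pos hp.pos 2
  have hcop : Nat.Coprime (p ^ 2) α := Nat.Coprime.pow_left 2 ((Nat.Prime.coprime_iff_not_dvd hp).2 hα)
  have key : ((range X).filter (fun t => p ^ 2 ∣ α * t + β)).card
      ≤ (range (X / p ^ 2 + 1)).card := by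
    apply Finset.card_le_card_of_injOn (fun t => t / p ^ 2)
    · intro t ht
      simp only [Finset.coe_filter, Finset.mem_range, Set.mem_ofPred_eq] at ht
      simp only [Finset.coe_range, Set.mem_Iio]
      exact Nat.lt_succ_of_le (Nat.div_le_div_right ht.1.le)
    · intro t ht t' ht' h
      simp only [Finset.coe_filter, Finset.mem_range, Set.mem_ofPred_eq] at ht ht'
      have hmod : t ≡ t' [MOD p ^ 2] := by
        have h1 : α * t + β ≡ α * t' + β [MOD p ^ 2] :=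
          ((Nat.modEq_zero_iff_dvd.2 ht.2).trans (Nat.modEq_zero_iff_dvd.2 ht'.2).symm)
        have h2 : α * t ≡ α * t' [MOD p ^ 2] := Nat.ModEq.add_right_cancel' β h1
        exact Nat.ModEq.cancel_left_of_coprime hcop h2
      have h3 : t / p ^ 2 = t' / p ^ 2 := h
      rw [← Nat.div_add_mod t (p ^ 2), ← Nat.div_add_mod t' (p ^ 2), h3]
      congr 1
  simpa using key

/-! T7c -/
theorem card_not_squarefree (R α β z0 Y : ℕ) (hz : 1 ≤ z0)
    (hα : ∀ t < 2 ^ R, ∀ p, p.Prime → p ∣ α * t + β → ¬ p ∣ α)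
    (hz0 : ∀ t < 2 ^ R, ∀ p, p.Prime → p ∣ α * t + β → z0 < p)
    (hL : ∀ t < 2 ^ R, 0 < α * t + β ∧ α * t + β ≤ Y ^ 2) :
    (((range (2 ^ R)).filter (fun t => ¬ Squarefree (α * t + β))).card : ℝ)
      ≤ 2 ^ R / z0 + Y := by
  classical
  set P := (Finset.Ioc z0 Y).filter (fun p => p.Prime ∧ ¬ p ∣ α) with hP
  have hsub : (range (2 ^ R)).filter (fun t => ¬ Squarefree (α * t + β)) ⊆
      P.biUnion (fun p => (range (2 ^ R)).filter (fun t => p ^ 2 ∣ α * t + β)) := by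
    intro t ht
    simp only [Finset.mem_filter, Finset.mem_range] at ht
    obtain ⟨ht, hns⟩ := ht
    rw [Nat.squarefree_iff_prime_squarefree] at hns
    push Not at hns
    obtain ⟨p, hp, hpd⟩ := hns
    have hpd1 : p ∣ α * t + β := (Dvd.intro _ rfl : p ∣ p * p).trans hpd
    have hle : p * p ≤ Y ^ 2 := (Nat.le_of_dvd (hL t ht).1 hpd).trans (hL t ht).2
    have hpY : p ≤ Y := by
      rw [← sq] at hle
      exact (Nat.pow_le_pow_iff_left (by norm_num)).1 hle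
    simp only [Finset.mem_biUnion, Finset.mem_filter, Finset.mem_range, hP, Finset.mem_Ioc]
    exact ⟨p, ⟨⟨hz0 t ht p hp hpd1, hpY⟩, hp, hα t ht p hp hpd1⟩, ht, by rw [sq]; exact hpd⟩
  have h1 : ((range (2 ^ R)).filter (fun t => ¬ Squarefree (α * t + β))).card ≤
      ∑ p ∈ P, ((2 ^ R) / p ^ 2 + 1) := by
    refine (Finset.card_le_card hsub).trans (Finset.card_biUnion_le.trans ?_)
    apply Finset.sum_le_sum
    intro p hp
    simp only [hP, Finset.mem_filter] at hp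
    exact card_sq_dvd (2 ^ R) α β p hp.2.1 hp.2.2
  have h2 : (((range (2 ^ R)).filter (fun t => ¬ Squarefree (α * t + β))).card : ℝ) ≤
      ∑ p ∈ P, ((2 : ℝ) ^ R * ((p : ℝ) ^ 2)⁻¹ + 1) := by
    have : (((range (2 ^ R)).filter (fun t => ¬ Squarefree (α * t + β))).card : ℝ) ≤
      ((∑ p ∈ P, ((2 ^ R) / p ^ 2 + 1) : ℕ) : ℝ) := by exact_mod_cast h1
    refine this.trans ?_
    push_cast
    apply Finset.sum_le_sum
    intro p _
    have := @Nat.cast_div_le ℝ _ _ _ (2 ^ R) (p ^ 2)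
    push_cast at this
    rw [← div_eq_mul_inv]
    linarith
  have h3 : ∑ p ∈ P, ((2 : ℝ) ^ R * ((p : ℝ) ^ 2)⁻¹ + 1) ≤
      ∑ p ∈ Finset.Ioc z0 Y, ((2 : ℝ) ^ R * ((p : ℝ) ^ 2)⁻¹ + 1) := by
    apply Finset.sum_le_sum_of_subset_of_nonneg
    · exact Finset.filter_subset _ _
    · intro i _ _; positivity
  have h4 : ∑ p ∈ Finset.Ioc z0 Y, ((2 : ℝ) ^ R * ((p : ℝ) ^ 2)⁻¹ + 1) ≤ 2 ^ R / z0 + Y := by
    rw [Finset.sum_add_distrib, ← Finset.mul_sum]
    have hz0' : (0 : ℝ) < z0 := by exact_mod_cast hz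
    have hc : ∑ p ∈ Finset.Ioc z0 Y, (1 : ℝ) ≤ Y := by
      simp only [Finset.sum_const, Nat.card_Ioc, nsmul_eq_mul, mul_one]
      exact_mod_cast Nat.sub_le _ _
    have hs : ∑ p ∈ Finset.Ioc z0 Y, ((p : ℝ) ^ 2)⁻¹ ≤ (z0 : ℝ)⁻¹ := by
      rcases le_total z0 Y with h | h
      · have := sum_Ioc_inv_sq_le_sub (α := ℝ) (k := z0) (n := Y) (by omega) h
        have hY : (0 : ℝ) ≤ (Y : ℝ)⁻¹ := by positivity
        linarith
      · rw [Finset.Ioc_eq_empty_of_le h]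
        simp
    have h2R : (0 : ℝ) ≤ 2 ^ R := by positivity
    calc (2 : ℝ) ^ R * ∑ p ∈ Finset.Ioc z0 Y, ((p : ℝ) ^ 2)⁻¹ + ∑ p ∈ Finset.Ioc z0 Y, (1 : ℝ)
        ≤ 2 ^ R * (z0 : ℝ)⁻¹ + Y := by
          gcongr
      _ = 2 ^ R / z0 + Y := by rw [div_eq_mul_inv]
  linarith

end Pool.Agent.Lib.TripleDiv
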