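import Pool.Agent.Lib.MP_def522_nt.Primes

set_option autoImplicit false

namespace Pool.Agent.Lib.TripleDiv

open Finset

theorem stepP_res {d q : ℕ} (hq : q.Prime) (hd : d.Coprime q) :
    ∃ a, ∀ P, P ≡ a [MOD q ^ 3] → (P * d + 1).factorization q = 2 := by
  have hq1 := hq.two_le
  have hq0 : 0 < q := by omega
  have hq3 : 1 < q ^ 3 := Nat.one_lt_pow (by norm_num) (by omega)
  obtain ⟨b, -, hb⟩ := Nat.exists_mul_mod_eq_one_of_coprime (hd.pow_right 3) hq3
  refine ⟨b * (q ^ 2 - 1), fun P hP => ?_⟩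
  have h1 : d * b ≡ 1 [MOD q ^ 3] := by
    unfold Nat.ModEq
    rw [hb, Nat.mod_eq_of_lt hq3]
  have h2 : P * d + 1 ≡ q ^ 2 [MOD q ^ 3] := by
    have e1 : P * d ≡ (b * (q ^ 2 - 1)) * d [MOD q ^ 3] := hP.mul_right d
    have e2 : (b * (q ^ 2 - 1)) * d = (d * b) * (q ^ 2 - 1) := by ring
    have e3 : (d * b) * (q ^ 2 - 1) ≡ 1 * (q ^ 2 - 1) [MOD q ^ 3] := h1.mul_right _
    rw [e2] at e1
    have e4 := (e1.trans e3).add_right 1
    have e5 : 1 * (q ^ 2 - 1) + 1 = q ^ 2 := by
      have : 0 < q ^ 2 := by positivity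
      omega
    rwa [e5] at e4
  have hne : P * d + 1 ≠ 0 := by omega
  have hdvd2 : q ^ 2 ∣ P * d + 1 := by
    have h3 : P * d + 1 ≡ q ^ 2 [MOD q ^ 2] := h2.of_dvd (pow_dvd_pow q (by norm_num))
    have h4 : q ^ 2 ≡ 0 [MOD q ^ 2] := by
      unfold Nat.ModEq; simp
    exact (Nat.modEq_zero_iff_dvd).1 (h3.trans h4)
  have hndvd3 : ¬ q ^ 3 ∣ P * d + 1 := by
    intro h
    have h3 : q ^ 2 ≡ 0 [MOD q ^ 3] := h2.symm.trans ((Nat.modEq_zero_iff_dvd).2 h)
    have h4 := Nat.le_of_dvd (by positivity) ((Nat.modEq_zero_iff_dvd).1 h3)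
    have h5 : q ^ 2 < q ^ 3 := Nat.pow_lt_pow_right (by omega) (by norm_num)
    omega
  have h6 := (hq.pow_dvd_iff_le_factorization hne).1 hdvd2
  have h7 : ¬ 3 ≤ (P * d + 1).factorization q := fun h =>
    hndvd3 ((hq.pow_dvd_iff_le_factorization hne).2 h)
  omega

theorem stepP {E : Type*} [Fintype E] (N0 C : ℕ) (hN0 : 3 ≤ N0) (δ' : E → ℕ)
    (hinj : Function.Injective δ') (hpos : ∀ e, 0 < δ' e) (hle : ∀ e, δ' e ≤ N0) :
    ∃ (P : ℕ) (q : E → Fin 3 → Fin C → ℕ), 3 ≤ P ∧
      P ≤ 2 ^ (N0 ^ 2 + 3 * (Fintype.card E * 3 * C) * (N0 + Fintype.card E * 3 * C)) ∧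
      (∀ e j i, (q e j i).Prime) ∧
      (∀ e, Function.Injective (fun ji : Fin 3 × Fin C => q e ji.1 ji.2)) ∧
      (∀ e j i, (P * δ' e + 1).factorization (q e j i) = 2) ∧
      (∀ e p, p.Prime → p ∣ P * δ' e + 1 → N0 < p) ∧
      Pairwise (fun e e' => Nat.Coprime (P * δ' e + 1) (P * δ' e' + 1)) := by
  classical
  obtain ⟨q, hqinj, hq⟩ := exists_primes (I := E × Fin 3 × Fin C) N0 (by omega)
  set M := Fintype.card E * 3 * C with hM
  have hcard : Fintype.card (E × Fin 3 × Fin C) = M := by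
    rw [Fintype.card_prod, Fintype.card_prod, Fintype.card_fin, Fintype.card_fin, hM]; ring
  have hcop : ∀ i : E × Fin 3 × Fin C, (δ' i.1).Coprime (q i) := by
    intro i
    refine (Nat.Coprime.symm ?_)
    refine (Nat.Prime.coprime_iff_not_dvd (hq i).1).2 fun h => ?_
    have := Nat.le_of_dvd (hpos _) h
    have := hle i.1
    have := (hq i).2.1
    omega
  choose a ha using fun i : E × Fin 3 × Fin C => stepP_res (hq i).1 (hcop i)
  let s : Option (E × Fin 3 × Fin C) → ℕ := fun o => o.elim (N0.factorial) (fun i => q i ^ 3)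
  let r : Option (E × Fin 3 × Fin C) → ℕ := fun o => o.elim 0 a
  have hs : ∀ o, 0 < s o := by
    intro o
    cases o with
    | none => exact Nat.factorial_pos _
    | some i => exact pow_pos (hq i).1.pos 3
  have hc : Pairwise (fun i j => Nat.Coprime (s i) (s j)) := by
    have h0 : ∀ i, Nat.Coprime (N0.factorial) (q i) := by
      intro i
      refine Nat.Coprime.symm ((Nat.Prime.coprime_iff_not_dvd (hq i).1).2 fun h => ?_)
      have := ((hq i).1.dvd_factorial).1 h
      have := (hq i).2.1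
      omega
    intro o o' hne
    cases o with
    | none =>
      cases o' with
      | none => exact absurd rfl hne
      | some i => exact (h0 i).pow_right 3
    | some i =>
      cases o' with
      | none => exact ((h0 i).pow_right 3).symm
      | some i' =>
        have : q i ≠ q i' := fun h => hne (congrArg some (hqinj h))
        exact ((Nat.coprime_primes (hq i).1 (hq i').1).2 this).pow 3 3
  obtain ⟨x, hx, hxr⟩ := crt s hs hc r
  have hprodpos : 0 < ∏ o, s o := Finset.prod_pos (fun o _ => hs o)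
  obtain ⟨P, hPpos, hPle, hPr⟩ : ∃ P, 0 < P ∧ P ≤ ∏ o, s o ∧ ∀ o, P ≡ r o [MOD s o] := by
    rcases Nat.eq_zero_or_pos x with h | h
    · refine ⟨∏ o, s o, hprodpos, le_rfl, fun o => ?_⟩
      have h1 : (∏ o, s o) ≡ 0 [MOD s o] :=
        (Nat.modEq_zero_iff_dvd).2 (Finset.dvd_prod_of_mem s (Finset.mem_univ o))
      have h2 := hxr o
      rw [h] at h2
      exact h1.trans h2
    · exact ⟨x, h, hx.le, hxr⟩
  have hfact : N0.factorial ∣ P := (Nat.modEq_zero_iff_dvd).1 (hPr none)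
  have hlarge : ∀ e p, p.Prime → p ∣ P * δ' e + 1 → N0 < p := by
    intro e p hp hd
    by_contra hle'
    have h1 : p ∣ N0.factorial := (hp.dvd_factorial).2 (by omega)
    have h2 : p ∣ P * δ' e := (h1.trans hfact).mul_right _
    have h3 : p ∣ 1 := (Nat.dvd_add_right h2).1 hd
    exact hp.one_lt.ne' (Nat.dvd_one.1 h3)
  refine ⟨P, fun e j i => q (e, j, i), ?_, ?_, fun e j i => (hq _).1, ?_, ?_, hlarge, ?_⟩
  · have h1 : Nat.factorial 3 ≤ N0.factorial := Nat.factorial_le hN0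
    have h2 := Nat.le_of_dvd hPpos hfact
    have h3 : Nat.factorial 3 = 6 := rfl
    omega
  · refine hPle.trans ?_
    rw [Fintype.prod_option]
    have h1 : s none ≤ 2 ^ (N0 ^ 2) := by
      show N0.factorial ≤ _
      calc N0.factorial ≤ N0 ^ N0 := Nat.factorial_le_pow N0
        _ ≤ (2 ^ N0) ^ N0 := Nat.pow_le_pow_left Nat.lt_two_pow_self.le _
        _ = 2 ^ (N0 ^ 2) := by rw [← pow_mul, sq]
    have h2 : ∏ i, s (some i) ≤ 2 ^ (3 * M * (N0 + M)) := by
      have h3 : ∀ i, s (some i) ≤ (2 ^ (N0 + M)) ^ 3 := by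
        intro i
        show q i ^ 3 ≤ _
        refine Nat.pow_le_pow_left ?_ 3
        refine (hq i).2.2.trans ?_
        rw [hcard, pow_add]
        exact Nat.mul_le_mul_right _ Nat.lt_two_pow_self.le
      calc ∏ i, s (some i) ≤ ∏ _i : E × Fin 3 × Fin C, (2 ^ (N0 + M)) ^ 3 :=
            Finset.prod_le_prod' (fun i _ => h3 i)
        _ = 2 ^ (3 * M * (N0 + M)) := by
            rw [Finset.prod_const, Finset.card_univ, hcard, ← pow_mul, ← pow_mul]
            congr 1; ring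
    calc s none * ∏ i, s (some i) ≤ 2 ^ (N0 ^ 2) * 2 ^ (3 * M * (N0 + M)) :=
          Nat.mul_le_mul h1 h2
      _ = _ := by rw [← pow_add]
  · intro e ji ji' h
    have := hqinj h
    simp only [Prod.mk.injEq, true_and] at this
    exact Prod.ext this.1 this.2
  · intro e j i
    exact ha (e, j, i) P (hPr (some (e, j, i)))
  · intro e e' hne
    by_contra hnc
    obtain ⟨p, hp, h1, h2⟩ := Nat.Prime.not_coprime_iff_dvd.1 hnc
    have hN := hlarge e p hp h1
    have hpP : ¬ p ∣ P := by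
      intro h
      have h3 : p ∣ 1 := (Nat.dvd_add_right (h.mul_right (δ' e))).1 h1
      exact hp.one_lt.ne' (Nat.dvd_one.1 h3)
    have hneδ : δ' e ≠ δ' e' := fun h => hne (hinj h)
    have key : ∀ x y : ℕ, x < y → y ≤ N0 → p ∣ P * x + 1 → p ∣ P * y + 1 → False := by
      intro x y hxy hy hx' hy'
      have h3 : p ∣ (P * y + 1) - (P * x + 1) := Nat.dvd_sub hy' hx'
      have h4 : (P * y + 1) - (P * x + 1) = P * (y - x) := by
        rw [Nat.mul_sub]; omega
      rw [h4] at h3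
      rcases hp.dvd_mul.1 h3 with h | h
      · exact hpP h
      · have := Nat.le_of_dvd (by omega) h
        omega
    rcases Nat.lt_or_gt_of_ne hneδ with h | h
    · exact key _ _ h (hle e') h1 h2
    · exact key _ _ h (hle e) h2 h1

end Pool.Agent.Lib.TripleDiv
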